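import Mathlib

namespace Pool.Agent.Helper68.Borsuk

open Finset

set_option linter.unusedSectionVars false

variable {E : Type*} [Fintype E] [DecidableEq E]

/-- coordinates fixed to `1` -/
def tr (σ : E → SignType) : Finset E := univ.filter (fun e => σ e = 1)
/-- coordinates fixed to `-1` -/
def fa (σ : E → SignType) : Finset E := univ.filter (fun e => σ e = -1)
/-- free coordinates -/
def fr (σ : E → SignType) : Finset E := univ.filter (fun e => σ e = 0)

/-- dimension plus one -/
def dm : Option (E → SignType) → ℕ
  | none => 0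
  | some σ => (fr σ).card + 1

/-- the boundary operator of the augmented cubical chain complex over `ZMod 2` -/
def bd (z : Option (E → SignType) → ZMod 2) : Option (E → SignType) → ZMod 2
  | none => ∑ σ ∈ univ.filter (fun σ : E → SignType => fr σ = ∅), z (some σ)
  | some σ => ∑ e ∈ univ.filter (fun e => σ e ≠ 0), z (some (Function.update σ e 0))

@[simp] lemma mem_tr {σ : E → SignType} {e : E} : e ∈ tr σ ↔ σ e = 1 := by simp [tr]
@[simp] lemma mem_fa {σ : E → SignType} {e : E} : e ∈ fa σ ↔ σ e = -1 := by simp [fa]
@[simp] lemma mem_fr {σ : E → SignType} {e : E} : e ∈ fr σ ↔ σ e = 0 := by simp [fr]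

lemma tr_update_one (σ : E → SignType) (e : E) : tr (Function.update σ e 1) = insert e (tr σ) := by
  ext f
  by_cases h : f = e
  · subst h; simp
  · simp [h]

lemma tr_update_neg (σ : E → SignType) (e : E) :
    tr (Function.update σ e (-1)) = (tr σ).erase e := by
  ext f
  by_cases h : f = e
  · subst h; simp
  · simp [h]

lemma tr_update_zero (σ : E → SignType) (e : E) :
    tr (Function.update σ e 0) = (tr σ).erase e := by
  ext f
  by_cases h : f = e
  · subst h; simp
  · simp [h]

lemma fa_update_neg (σ : E → SignType) (e : E) :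
    fa (Function.update σ e (-1)) = insert e (fa σ) := by
  ext f
  by_cases h : f = e
  · subst h; simp
  · simp [h]

lemma fa_update_one (σ : E → SignType) (e : E) :
    fa (Function.update σ e 1) = (fa σ).erase e := by
  ext f
  by_cases h : f = e
  · subst h; simp
  · simp [h]

lemma fa_update_zero (σ : E → SignType) (e : E) :
    fa (Function.update σ e 0) = (fa σ).erase e := by
  ext f
  by_cases h : f = e
  · subst h; simp
  · simp [h]

lemma fr_update_zero (σ : E → SignType) (e : E) :
    fr (Function.update σ e 0) = insert e (fr σ) := by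
  ext f
  by_cases h : f = e
  · subst h; simp
  · simp [h]

lemma fr_update_ne (σ : E → SignType) (e : E) (s : SignType) (hs : s ≠ 0) :
    fr (Function.update σ e s) = (fr σ).erase e := by
  ext f
  by_cases h : f = e
  · subst h; simp [hs]
  · simp [h]

lemma bd_add (z w : Option (E → SignType) → ZMod 2) : bd (z + w) = bd z + bd w := by
  funext c
  cases c with
  | none => simp [bd, Finset.sum_add_distrib]
  | some σ => simp [bd, Finset.sum_add_distrib]

lemma bd_zero : bd (0 : Option (E → SignType) → ZMod 2) = 0 := by
  funext c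
  cases c with
  | none => simp [bd]
  | some σ => simp [bd]

lemma add_self (z : Option (E → SignType) → ZMod 2) : z + z = 0 := by
  funext c
  exact CharTwo.add_self_eq_zero _

lemma eq_of_add_eq_zero {z w : Option (E → SignType) → ZMod 2} (h : z + w = 0) : z = w := by
  have : z + w + w = w := by rw [h, zero_add]
  rwa [add_assoc, add_self, add_zero] at this

lemma bd_bd (z : Option (E → SignType) → ZMod 2) : bd (bd z) = 0 := by
  funext c
  cases c with
  | none =>
    change ∑ σ ∈ univ.filter (fun σ : E → SignType => fr σ = ∅),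
      ∑ e ∈ univ.filter (fun e => σ e ≠ 0), z (some (Function.update σ e 0)) = 0
    have h1 : ∀ σ ∈ univ.filter (fun σ : E → SignType => fr σ = ∅),
        ∑ e ∈ univ.filter (fun e => σ e ≠ 0), z (some (Function.update σ e 0))
          = ∑ e, z (some (Function.update σ e 0)) := by
      intro σ hσ
      have hσ' : fr σ = ∅ := (mem_filter.1 hσ).2
      congr 1
      ext e
      simp only [mem_filter, mem_univ, true_and, iff_true]
      intro h
      have : e ∈ fr σ := by simpa using h
      rw [hσ'] at this
      simp at this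
    rw [Finset.sum_congr rfl h1, Finset.sum_comm]
    apply Finset.sum_eq_zero
    intro e _
    refine Finset.sum_involution (fun σ _ => Function.update σ e (-σ e)) ?_ ?_ ?_ ?_
    · intro σ _
      have : Function.update (Function.update σ e (-σ e)) e 0 = Function.update σ e 0 := by
        simp
      rw [this]
      exact CharTwo.add_self_eq_zero _
    · intro σ hσ _ h
      have hσ' : fr σ = ∅ := (mem_filter.1 hσ).2
      have h2 := congrFun h e
      simp only [Function.update_self] at h2
      have h3 : σ e = 0 := by
        revert h2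
        cases σ e <;> decide
      have : e ∈ fr σ := by simpa using h3
      rw [hσ'] at this
      simp at this
    · intro σ hσ
      have hσ' : fr σ = ∅ := (mem_filter.1 hσ).2
      have hσe : σ e ≠ 0 := by
        intro h
        have : e ∈ fr σ := by simpa using h
        rw [hσ'] at this
        simp at this
      simp only [mem_filter, mem_univ, true_and]
      rw [fr_update_ne _ _ _ (by revert hσe; cases σ e <;> decide), hσ']
      simp
    · intro σ _
      funext f
      by_cases h : f = e
      · subst h; simp
      · simp [h]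
  | some σ =>
    change ∑ e ∈ univ.filter (fun e => σ e ≠ 0),
      ∑ f ∈ univ.filter (fun f => Function.update σ e 0 f ≠ 0),
        z (some (Function.update (Function.update σ e 0) f 0)) = 0
    rw [Finset.sum_sigma']
    refine Finset.sum_involution (fun p _ => ⟨p.2, p.1⟩) ?_ ?_ ?_ ?_
    · rintro ⟨e, f⟩ hp
      simp only [mem_sigma, mem_filter, mem_univ, true_and] at hp
      have hfe : f ≠ e := by
        rintro rfl
        simp at hp
      simp only
      rw [Function.update_comm hfe.symm]
      exact CharTwo.add_self_eq_zero _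
    · rintro ⟨e, f⟩ hp _ h
      simp only [mem_sigma, mem_filter, mem_univ, true_and] at hp
      have hfe : f ≠ e := by
        rintro rfl
        simp at hp
      simp only [Sigma.mk.injEq] at h
      exact hfe h.1
    · rintro ⟨e, f⟩ hp
      simp only [mem_sigma, mem_filter, mem_univ, true_and] at hp ⊢
      have hfe : f ≠ e := by
        rintro rfl
        simp at hp
      obtain ⟨h1, h2⟩ := hp
      rw [Function.update_of_ne hfe] at h2
      refine ⟨h2, ?_⟩
      rw [Function.update_of_ne hfe.symm]
      exact h1
    · rintro ⟨e, f⟩ _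
      rfl

/-- closed under passing to faces, and containing the empty cell -/
def Closed (S : Set (Option (E → SignType))) : Prop :=
  none ∈ S ∧ ∀ (σ : E → SignType) (e : E), σ e ≠ 0 → some (Function.update σ e 0) ∈ S → some σ ∈ S

/-- reduced homology over `ZMod 2` of the subcomplex `S` vanishes in degrees less than `n - 1` -/
def Acy (S : Set (Option (E → SignType))) (n : ℕ) : Prop :=
  ∀ m < n, ∀ z : Option (E → SignType) → ZMod 2, (∀ c, z c ≠ 0 → c ∈ S ∧ dm c = m) → bd z = 0 →
    ∃ w : Option (E → SignType) → ZMod 2, (∀ c, w c ≠ 0 → c ∈ S ∧ dm c = m + 1) ∧ bd w = z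

lemma supp_bd {S : Set (Option (E → SignType))} (hS : Closed S) {m : ℕ}
    {z : Option (E → SignType) → ZMod 2} (hz : ∀ c, z c ≠ 0 → c ∈ S ∧ dm c = m + 1) :
    ∀ c, bd z c ≠ 0 → c ∈ S ∧ dm c = m := by
  intro c hc
  cases c with
  | none =>
    obtain ⟨σ, hσ, h⟩ := Finset.exists_ne_zero_of_sum_ne_zero hc
    have h1 := (hz _ h).2
    have hσ' : fr σ = ∅ := (mem_filter.1 hσ).2
    refine ⟨hS.1, ?_⟩
    simp only [dm, hσ', card_empty] at h1 ⊢
    omega
  | some σ =>
    obtain ⟨e, he, h⟩ := Finset.exists_ne_zero_of_sum_ne_zero hc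
    have he' : σ e ≠ 0 := (mem_filter.1 he).2
    obtain ⟨h1, h2⟩ := hz _ h
    refine ⟨hS.2 σ e he' h1, ?_⟩
    simp only [dm, fr_update_zero] at h2 ⊢
    rw [card_insert_of_notMem (by simpa using he')] at h2
    omega

lemma Acy.mono {S : Set (Option (E → SignType))} {n m : ℕ} (h : Acy S n) (hmn : m ≤ n) :
    Acy S m := fun k hk => h k (lt_of_lt_of_le hk hmn)

open Classical in
/-- part of a chain lying in `S` -/
noncomputable def part (S : Set (Option (E → SignType))) (z : Option (E → SignType) → ZMod 2) :
    Option (E → SignType) → ZMod 2 := fun c => if c ∈ S then z c else 0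

lemma part_supp (S : Set (Option (E → SignType))) (z : Option (E → SignType) → ZMod 2)
    {P : Option (E → SignType) → Prop} (hz : ∀ c, z c ≠ 0 → P c) :
    ∀ c, part S z c ≠ 0 → c ∈ S ∧ P c := by
  intro c hc
  unfold part at hc
  split_ifs at hc with h
  · exact ⟨h, hz c hc⟩
  · exact absurd rfl hc

lemma rest_supp (S T : Set (Option (E → SignType))) (z : Option (E → SignType) → ZMod 2)
    {P : Option (E → SignType) → Prop} (hz : ∀ c, z c ≠ 0 → c ∈ S ∪ T ∧ P c) :
    ∀ c, (z + part S z) c ≠ 0 → c ∈ T ∧ P c := by
  intro c hc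
  rw [Pi.add_apply] at hc
  unfold part at hc
  split_ifs at hc with h
  · exact absurd (CharTwo.add_self_eq_zero _) hc
  · rw [add_zero] at hc
    obtain ⟨h1, h2⟩ := hz c hc
    exact ⟨h1.resolve_left h, h2⟩

lemma add_supp {P : Option (E → SignType) → Prop} {z w : Option (E → SignType) → ZMod 2}
    (hz : ∀ c, z c ≠ 0 → P c) (hw : ∀ c, w c ≠ 0 → P c) : ∀ c, (z + w) c ≠ 0 → P c := by
  intro c hc
  by_contra hP
  have h1 : z c = 0 := by
    by_contra h
    exact hP (hz c h)
  have h2 : w c = 0 := by
    by_contra h
    exact hP (hw c h)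
  apply hc
  rw [Pi.add_apply, h1, h2, add_zero]

/-- Mayer Vietoris for intersections -/
lemma acy_inter {S T : Set (Option (E → SignType))} (hS : Closed S) (hT : Closed T) {n : ℕ}
    (h1 : Acy S n) (h2 : Acy T n) (h3 : Acy (S ∪ T) (n + 1)) : Acy (S ∩ T) n := by
  intro m hm z hz hbz
  obtain ⟨w1, hw1, hb1⟩ := h1 m hm z (fun c hc => ⟨(hz c hc).1.1, (hz c hc).2⟩) hbz
  obtain ⟨w2, hw2, hb2⟩ := h2 m hm z (fun c hc => ⟨(hz c hc).1.2, (hz c hc).2⟩) hbz
  obtain ⟨v, hv, hbv⟩ := h3 (m + 1) (by omega) (w1 + w2)
    (add_supp (fun c hc => ⟨Or.inl (hw1 c hc).1, (hw1 c hc).2⟩)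
      (fun c hc => ⟨Or.inr (hw2 c hc).1, (hw2 c hc).2⟩))
    (by rw [bd_add, hb1, hb2, add_self])
  have hp := part_supp S v (P := fun c => dm c = m + 1 + 1) (fun c hc => (hv c hc).2)
  have hr := rest_supp S T v (P := fun c => dm c = m + 1 + 1) hv
  have e1 : w1 + bd (part S v) = w2 + bd (v + part S v) := by
    rw [bd_add, hbv]
    have : w2 + (w1 + w2 + bd (part S v)) = w1 + bd (part S v) + (w2 + w2) := by abel
    rw [this, add_self, add_zero]
  refine ⟨w1 + bd (part S v), ?_, ?_⟩
  · intro c hc
    have ha := add_supp hw1 (supp_bd hS hp) c hc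
    have hc' := hc
    rw [e1] at hc'
    have hb := add_supp hw2 (supp_bd hT hr) c hc'
    exact ⟨⟨ha.1, hb.1⟩, ha.2⟩
  · rw [bd_add, bd_bd, add_zero, hb1]

/-- Mayer Vietoris for unions -/
lemma acy_union {S T : Set (Option (E → SignType))} (hS : Closed S) (hT : Closed T) {n k : ℕ}
    (h1 : Acy S n) (h2 : Acy T n) (h3 : Acy (S ∩ T) k) (hk : n ≤ k + 1) : Acy (S ∪ T) n := by
  intro m hm z hz hbz
  rcases Nat.eq_zero_or_pos m with rfl | hm0
  · -- dimension -1
    have : ∀ c, z c ≠ 0 → c ∈ S ∧ dm c = 0 := by
      intro c hc
      obtain ⟨_, h⟩ := hz c hc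
      cases c with
      | none => exact ⟨hS.1, h⟩
      | some σ => simp [dm] at h
    obtain ⟨w, hw, hb⟩ := h1 0 hm z this hbz
    exact ⟨w, fun c hc => ⟨Or.inl (hw c hc).1, (hw c hc).2⟩, hb⟩
  · obtain ⟨l, rfl⟩ : ∃ l, m = l + 1 := ⟨m - 1, by omega⟩
    have hp := part_supp S z (P := fun c => dm c = l + 1) (fun c hc => (hz c hc).2)
    have hr := rest_supp S T z (P := fun c => dm c = l + 1) hz
    have hbp := supp_bd hS hp
    have hbr := supp_bd hT hr
    have e1 : bd (z + part S z) = bd (part S z) := by
      rw [bd_add, hbz, zero_add]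
    rw [e1] at hbr
    obtain ⟨u, hu, hbu⟩ := h3 l (by omega) (bd (part S z))
      (fun c hc => ⟨⟨(hbp c hc).1, (hbr c hc).1⟩, (hbp c hc).2⟩) (bd_bd _)
    obtain ⟨w1, hw1, hb1⟩ := h1 (l + 1) hm (part S z + u)
      (add_supp hp (fun c hc => ⟨(hu c hc).1.1, (hu c hc).2⟩)) (by rw [bd_add, hbu, add_self])
    obtain ⟨w2, hw2, hb2⟩ := h2 (l + 1) hm (z + part S z + u)
      (add_supp hr (fun c hc => ⟨(hu c hc).1.2, (hu c hc).2⟩))
      (by rw [bd_add, hbu, e1, add_self])
    refine ⟨w1 + w2, add_supp (fun c hc => ⟨Or.inl (hw1 c hc).1, (hw1 c hc).2⟩)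
      (fun c hc => ⟨Or.inr (hw2 c hc).1, (hw2 c hc).2⟩), ?_⟩
    rw [bd_add, hb1, hb2]
    have : part S z + u + (z + part S z + u) = z + (part S z + part S z) + (u + u) := by abel
    rw [this, add_self, add_self, add_zero, add_zero]

/-! ### contraction -/

/-- push coordinate `e` from `1` to `-1` -/
def push (e : E) (z : Option (E → SignType) → ZMod 2) : Option (E → SignType) → ZMod 2
  | none => z none
  | some σ => if σ e = -1 then z (some σ) + z (some (Function.update σ e 1)) else 0

/-- the homotopy for `push` -/
def hom (e : E) (z : Option (E → SignType) → ZMod 2) : Option (E → SignType) → ZMod 2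
  | none => 0
  | some σ => if σ e = 0 then z (some (Function.update σ e 1)) else 0

lemma push_eq (e : E) (z : Option (E → SignType) → ZMod 2) :
    push e z = z + bd (hom e z) + hom e (bd z) := by
  funext c
  cases c with
  | none =>
    simp only [Pi.add_apply, push, bd, hom]
    have : ∑ σ ∈ univ.filter (fun σ : E → SignType => fr σ = ∅),
        (if σ e = 0 then z (some (Function.update σ e 1)) else 0) = 0 := by
      apply Finset.sum_eq_zero
      intro σ hσ
      have hσ' : fr σ = ∅ := (mem_filter.1 hσ).2
      rw [if_neg]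
      intro h
      have : e ∈ fr σ := by simpa using h
      rw [hσ'] at this
      simp at this
    rw [this]
    simp
  | some σ =>
    simp only [Pi.add_apply, push, bd, hom]
    rcases SignType.trichotomy (σ e) with h | h | h
    · -- σ e = -1
      rw [if_pos h, if_neg (by rw [h]; decide), add_zero]
      congr 1
      rw [Finset.sum_eq_single e]
      · simp
      · intro f _ hfe
        rw [if_neg]
        rw [Function.update_of_ne hfe.symm, h]
        decide
      · intro he
        exfalso
        apply he
        simp [h]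
    · -- σ e = 0
      rw [if_neg (by rw [h]; decide), if_pos h]
      have h1 : ∑ f ∈ univ.filter (fun f => σ f ≠ 0),
          (if Function.update σ f 0 e = 0 then
            z (some (Function.update (Function.update σ f 0) e 1)) else 0)
          = ∑ f ∈ univ.filter (fun f => σ f ≠ 0),
            z (some (Function.update (Function.update σ e 1) f 0)) := by
        apply Finset.sum_congr rfl
        intro f hf
        have hf' : σ f ≠ 0 := (mem_filter.1 hf).2
        have hne : e ≠ f := by
          rintro rfl
          exact hf' h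
        rw [Function.update_of_ne hne, if_pos h, Function.update_comm hne.symm]
      have h2 : univ.filter (fun f => Function.update σ e 1 f ≠ 0)
          = insert e (univ.filter (fun f => σ f ≠ 0)) := by
        ext f
        by_cases hfe : f = e
        · subst hfe; simp
        · simp [hfe]
      have h3 : e ∉ univ.filter (fun f => σ f ≠ 0) := by simp [h]
      rw [h1, h2, Finset.sum_insert h3]
      have h4 : Function.update (Function.update σ e 1) e 0 = σ := by
        rw [Function.update_idem, ← h, Function.update_eq_self]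
      rw [h4]
      have : ∀ a b : ZMod 2, (0 : ZMod 2) = a + b + (a + b) := fun a b =>
        (CharTwo.add_self_eq_zero _).symm
      exact this _ _
    · -- σ e = 1
      rw [if_neg (by rw [h]; decide), if_neg (by rw [h]; decide), add_zero]
      rw [Finset.sum_eq_single e]
      · have h4 : Function.update (Function.update σ e 0) e 1 = σ := by
          rw [Function.update_idem, ← h, Function.update_eq_self]
        simp only [Function.update_self, if_true, h4]
        exact (CharTwo.add_self_eq_zero _).symm
      · intro f _ hfe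
        rw [if_neg]
        rw [Function.update_of_ne hfe.symm, h]
        decide
      · intro he
        exfalso
        apply he
        simp [h]

/-- The complex of all cells whose `1`-set contains `X₀` and whose `-1`-set satisfies an
upward closed property satisfied by the complement of `X₀`, is acyclic in all degrees. -/
lemma acy_cone (X₀ : Finset E) (D : Finset E → Prop) (hD : ∀ A B, A ⊆ B → D A → D B)
    (hX₀ : D X₀ᶜ) (n : ℕ) :
    Acy {c : Option (E → SignType) | ∀ σ, c = some σ → X₀ ⊆ tr σ ∧ D (fa σ)} n := by
  intro m _ z hz hbz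
  set S : Set (Option (E → SignType)) := {c | ∀ σ, c = some σ → X₀ ⊆ tr σ ∧ D (fa σ)} with hS
  have hcl : Closed S := by
    refine ⟨(by intro σ h; cases h), ?_⟩
    intro σ e he h τ hτ
    cases hτ
    obtain ⟨h1, h2⟩ := h _ rfl
    rw [tr_update_zero] at h1
    rw [fa_update_zero] at h2
    exact ⟨h1.trans (erase_subset _ _), hD _ _ (erase_subset _ _) h2⟩
  have key : ∀ W : Finset E, Disjoint W X₀ → ∃ z' : Option (E → SignType) → ZMod 2,
      (∀ c, z' c ≠ 0 → (c ∈ S ∧ dm c = m) ∧ ∀ σ, c = some σ → ∀ f ∈ W, σ f = -1) ∧
      bd z' = 0 ∧ ∃ w : Option (E → SignType) → ZMod 2,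
        (∀ c, w c ≠ 0 → c ∈ S ∧ dm c = m + 1) ∧ z = z' + bd w := by
    intro W
    induction W using Finset.induction_on with
    | empty =>
      intro _
      refine ⟨z, fun c hc => ⟨hz c hc, by simp⟩, hbz, 0, by simp, by simp [bd_zero]⟩
    | insert e W he ih =>
      intro hdis
      obtain ⟨z', hz', hb', w, hw, hzw⟩ := ih (Disjoint.mono_left (subset_insert _ _) hdis)
      have heX : e ∉ X₀ := by
        intro h
        exact (Finset.disjoint_left.1 hdis) (mem_insert_self _ _) h
      have hpe : push e z' = z' + bd (hom e z') := by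
        rw [push_eq, hb']
        have : hom e (0 : Option (E → SignType) → ZMod 2) = 0 := by
          funext c
          cases c <;> simp [hom]
        rw [this, add_zero]
      have hhom : ∀ c, hom e z' c ≠ 0 → c ∈ S ∧ dm c = m + 1 := by
        intro c hc
        cases c with
        | none => exact absurd rfl hc
        | some σ =>
          simp only [hom] at hc
          split_ifs at hc with h
          · obtain ⟨⟨h1, h2⟩, h3⟩ := hz' _ hc
            obtain ⟨h4, h5⟩ := h1 _ rfl
            rw [fa_update_one] at h5
            rw [tr_update_one] at h4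
            refine ⟨?_, ?_⟩
            · intro τ hτ
              cases hτ
              refine ⟨?_, hD _ _ (erase_subset _ _) h5⟩
              intro f hf
              rcases mem_insert.1 (h4 hf) with rfl | h6
              · exact absurd hf heX
              · exact h6
            · simp only [dm] at h2 ⊢
              rw [fr_update_ne _ _ _ (by decide)] at h2
              rw [card_erase_of_mem (by simpa using h)] at h2
              have : 0 < (fr σ).card := card_pos.2 ⟨e, by simpa using h⟩
              omega
          · exact absurd rfl hc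
      refine ⟨push e z', ?_, ?_, w + hom e z', add_supp hw hhom, ?_⟩
      · intro c hc
        cases c with
        | none =>
          simp only [push] at hc
          exact ⟨(hz' _ hc).1, by simp⟩
        | some σ =>
          simp only [push] at hc
          split_ifs at hc with h
          · have hor : z' (some σ) ≠ 0 ∨ z' (some (Function.update σ e 1)) ≠ 0 := by
              by_contra hcon
              rw [not_or, not_not, not_not] at hcon
              rw [hcon.1, hcon.2, add_zero] at hc
              exact hc rfl
            rcases hor with h0 | h0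
            · obtain ⟨h1, h2⟩ := hz' _ h0
              refine ⟨h1, ?_⟩
              intro τ hτ f hf
              cases hτ
              rcases mem_insert.1 hf with rfl | h6
              · exact h
              · exact h2 _ rfl f h6
            · obtain ⟨⟨h1, h2⟩, h3⟩ := hz' _ h0
              obtain ⟨h4, h5⟩ := h1 _ rfl
              rw [fa_update_one] at h5
              rw [tr_update_one] at h4
              refine ⟨⟨?_, ?_⟩, ?_⟩
              · intro τ hτ
                cases hτ
                refine ⟨?_, hD _ _ (erase_subset _ _) h5⟩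
                intro f hf
                rcases mem_insert.1 (h4 hf) with rfl | h6
                · exact absurd hf heX
                · exact h6
              · simp only [dm] at h2 ⊢
                rw [fr_update_ne _ _ _ (by decide)] at h2
                rw [erase_eq_of_notMem] at h2
                · exact h2
                · simp only [mem_fr, h]
                  decide
              · intro τ hτ f hf
                cases hτ
                rcases mem_insert.1 hf with rfl | h6
                · exact h
                · have h7 := h3 _ rfl f h6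
                  rwa [Function.update_of_ne (by rintro rfl; exact he h6)] at h7
          · exact absurd rfl hc
      · rw [hpe, bd_add, bd_bd, hb', add_zero]
      · rw [hpe, bd_add, hzw]
        have : z' + bd (hom e z') + (bd w + bd (hom e z'))
            = z' + bd w + (bd (hom e z') + bd (hom e z')) := by abel
        rw [this, add_self, add_zero]
  obtain ⟨z', hz', hb', w, hw, hzw⟩ := key X₀ᶜ disjoint_compl_left
  -- the only possible cells of `z'` are the empty one and `σ₀`
  set σ₀ : E → SignType := fun e => if e ∈ X₀ then 1 else -1 with hσ₀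
  have hσ₀tr : tr σ₀ = X₀ := by
    ext e
    simp only [mem_tr, hσ₀]
    split_ifs with h
    · simp [h]
    · simp [h]
  have hσ₀fa : fa σ₀ = X₀ᶜ := by
    ext e
    simp only [mem_fa, hσ₀, mem_compl]
    split_ifs with h
    · simp [h]
    · simp [h]
  have hσ₀fr : fr σ₀ = ∅ := by
    ext e
    simp only [mem_fr, hσ₀, notMem_empty, iff_false]
    split_ifs <;> decide
  have hcell : ∀ σ, z' (some σ) ≠ 0 → σ = σ₀ := by
    intro σ hσ
    obtain ⟨⟨h1, _⟩, h3⟩ := hz' _ hσ
    funext e
    by_cases he : e ∈ X₀
    · have := (h1 _ rfl).1 he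
      simp only [mem_tr] at this
      simp [hσ₀, he, this]
    · have := h3 _ rfl e (by simpa using he)
      simp [hσ₀, he, this]
  have hσ₀S : some σ₀ ∈ S := by
    intro τ hτ
    cases hτ
    rw [hσ₀tr, hσ₀fa]
    exact ⟨subset_rfl, hX₀⟩
  -- it suffices to bound `z'`
  suffices h : ∃ w' : Option (E → SignType) → ZMod 2,
      (∀ c, w' c ≠ 0 → c ∈ S ∧ dm c = m + 1) ∧ bd w' = z' by
    obtain ⟨w', hw', hbw'⟩ := h
    exact ⟨w' + w, add_supp hw' hw, by rw [bd_add, hbw', hzw]⟩
  rcases Nat.eq_zero_or_pos m with rfl | hm0
  · -- m = 0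
    refine ⟨fun c => if c = some σ₀ then z' none else 0, ?_, ?_⟩
    · intro c hc
      simp only at hc
      split_ifs at hc with h
      · subst h
        exact ⟨hσ₀S, by simp [dm, hσ₀fr]⟩
      · exact absurd rfl hc
    · funext c
      cases c with
      | none =>
        simp only [bd]
        rw [Finset.sum_eq_single σ₀]
        · simp
        · intro σ _ hne
          rw [if_neg]
          simpa using hne
        · intro h
          exfalso
          apply h
          simp [hσ₀fr]
      | some σ =>
        have hz0 : z' (some σ) = 0 := by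
          by_contra h
          have := (hz' _ h).1.2
          simp [dm] at this
        rw [hz0]
        simp only [bd]
        apply Finset.sum_eq_zero
        intro e he
        rw [if_neg]
        intro h
        simp only [Option.some.injEq] at h
        have h2 : (fr (Function.update σ e 0)) = ∅ := by rw [h, hσ₀fr]
        rw [fr_update_zero] at h2
        exact (Finset.insert_ne_empty _ _) h2
  · have hz0 : z' = 0 := by
      funext c
      cases c with
      | none =>
        by_contra h
        have := (hz' _ h).1.2
        simp only [dm] at this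
        omega
      | some σ =>
        by_contra h
        have h1 : σ = σ₀ := hcell σ h
        subst h1
        have h2 := congrFun hb' none
        simp only [bd, Pi.zero_apply] at h2
        rw [Finset.sum_eq_single σ₀] at h2
        · exact h h2
        · intro τ _ hne
          by_contra h3
          exact hne (hcell τ h3)
        · intro h3
          exfalso
          apply h3
          simp [hσ₀fr]
    rw [hz0]
    exact ⟨0, by simp, bd_zero⟩

/-! ### matroid rank functions -/

/-- the axioms of a matroid rank function -/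
structure IsRank (ρ : Finset E → ℕ) : Prop where
  empty : ρ ∅ = 0
  mono : ∀ A B, A ⊆ B → ρ A ≤ ρ B
  insert_le : ∀ A e, ρ (insert e A) ≤ ρ A + 1
  submod : ∀ A B, ρ (A ∪ B) + ρ (A ∩ B) ≤ ρ A + ρ B

lemma IsRank.union_eq {ρ : Finset E → ℕ} (h : IsRank ρ) (B G : Finset E)
    (hG : ∀ g ∈ G, ρ (insert g B) ≤ ρ B) : ρ (B ∪ G) = ρ B := by
  induction G using Finset.induction_on with
  | empty => simp
  | insert g G hg ih =>
    have h1 := ih (fun x hx => hG x (mem_insert_of_mem hx))
    have h2 := hG g (mem_insert_self _ _)
    have h3 := h.submod (B ∪ G) (insert g B)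
    have h4 : B ∪ G ∪ insert g B = B ∪ insert g G := by
      ext x; simp only [mem_union, mem_insert]; tauto
    have h5 : ρ B ≤ ρ ((B ∪ G) ∩ insert g B) :=
      h.mono _ _ (subset_inter subset_union_left (subset_insert _ _))
    have h6 : ρ B ≤ ρ (B ∪ insert g G) := h.mono _ _ subset_union_left
    rw [h4] at h3
    omega

/-- the complex of cells whose `1`-set satisfies `P` and whose `-1`-set is spanning -/
def cx (ρ : Finset E → ℕ) (P : Finset E → Prop) : Set (Option (E → SignType)) :=
  {c | ∀ σ, c = some σ → P (tr σ) ∧ ρ (fa σ) = ρ univ}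

lemma span_mono {ρ : Finset E → ℕ} (h : IsRank ρ) (A B : Finset E) (hAB : A ⊆ B)
    (hA : ρ A = ρ univ) : ρ B = ρ univ :=
  le_antisymm (h.mono _ _ (subset_univ _)) (hA ▸ h.mono _ _ hAB)

lemma closed_cx {ρ : Finset E → ℕ} (h : IsRank ρ) {P : Finset E → Prop}
    (hP : ∀ A B, A ⊆ B → P A → P B) : Closed (cx ρ P) := by
  refine ⟨(by intro σ h; cases h), ?_⟩
  intro σ e he hc τ hτ
  cases hτ
  obtain ⟨h1, h2⟩ := hc _ rfl
  rw [tr_update_zero] at h1
  rw [fa_update_zero] at h2
  exact ⟨hP _ _ (erase_subset _ _) h1, span_mono h _ _ (erase_subset _ _) h2⟩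

lemma mem_cx_some {ρ : Finset E → ℕ} {P : Finset E → Prop} {σ : E → SignType} :
    some σ ∈ cx ρ P ↔ P (tr σ) ∧ ρ (fa σ) = ρ univ := by
  constructor
  · intro h; exact h σ rfl
  · rintro h τ hτ
    cases hτ
    exact h

lemma mem_cx_none {ρ : Finset E → ℕ} {P : Finset E → Prop} :
    (none : Option (E → SignType)) ∈ cx ρ P := by
  intro σ h; cases h

lemma cx_union (ρ : Finset E → ℕ) (P Q : Finset E → Prop) :
    cx ρ P ∪ cx ρ Q = cx ρ (fun X => P X ∨ Q X) := by
  ext c
  cases c with
  | none => simp [mem_cx_none]
  | some σ =>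
    simp only [Set.mem_union, mem_cx_some]
    tauto

lemma cx_inter (ρ : Finset E → ℕ) (P Q : Finset E → Prop) :
    cx ρ P ∩ cx ρ Q = cx ρ (fun X => P X ∧ Q X) := by
  ext c
  cases c with
  | none => simp [mem_cx_none]
  | some σ =>
    simp only [Set.mem_inter_iff, mem_cx_some]
    tauto

lemma cx_congr {ρ : Finset E → ℕ} {P Q : Finset E → Prop} (h : ∀ X, P X ↔ Q X) :
    cx ρ P = cx ρ Q := by
  have : P = Q := by funext X; exact propext (h X)
  rw [this]

lemma acy_super {ρ : Finset E → ℕ} (h : IsRank ρ) (X₀ : Finset E) (hX : ρ X₀ᶜ = ρ univ) (n : ℕ) :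
    Acy (cx ρ (fun X => X₀ ⊆ X)) n :=
  acy_cone X₀ (fun A => ρ A = ρ univ) (fun A B hAB hA => span_mono h A B hAB hA) hX n

lemma up1 (X₀ G : Finset E) : ∀ A B : Finset E, A ⊆ B → (X₀ ⊆ A ∧ (A ∩ G).Nonempty) →
    (X₀ ⊆ B ∧ (B ∩ G).Nonempty) := by
  rintro A B hAB ⟨h1, h2⟩
  exact ⟨h1.trans hAB, h2.mono (inter_subset_inter_right hAB)⟩

lemma up2 (X₀ : Finset E) : ∀ A B : Finset E, A ⊆ B → X₀ ⊆ A → X₀ ⊆ B :=
  fun _ _ hAB h => h.trans hAB

lemma fam_union (X₀ G : Finset E) (g : E) (X : Finset E) :
    (X₀ ⊆ X ∧ (X ∩ insert g G).Nonempty) ↔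
      (insert g X₀ ⊆ X) ∨ (X₀ ⊆ X ∧ (X ∩ G).Nonempty) := by
  constructor
  · rintro ⟨h1, x, hx⟩
    rw [mem_inter, mem_insert] at hx
    obtain ⟨h2, rfl | h3⟩ := hx
    · left
      exact insert_subset h2 h1
    · right
      exact ⟨h1, x, mem_inter.2 ⟨h2, h3⟩⟩
  · rintro (h | ⟨h1, x, hx⟩)
    · exact ⟨(subset_insert _ _).trans h, g, mem_inter.2 ⟨h (mem_insert_self _ _),
        mem_insert_self _ _⟩⟩
    · rw [mem_inter] at hx
      exact ⟨h1, x, mem_inter.2 ⟨hx.1, mem_insert_of_mem hx.2⟩⟩

lemma fam_inter (X₀ G : Finset E) (g : E) (X : Finset E) :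
    ((insert g X₀ ⊆ X) ∧ (X₀ ⊆ X ∧ (X ∩ G).Nonempty)) ↔
      (insert g X₀ ⊆ X ∧ (X ∩ G).Nonempty) := by
  constructor
  · rintro ⟨h1, h2, h3⟩; exact ⟨h1, h3⟩
  · rintro ⟨h1, h3⟩; exact ⟨h1, (subset_insert _ _).trans h1, h3⟩

lemma acy_B0 {ρ : Finset E → ℕ} (h : IsRank ρ) (G : Finset E) :
    ∀ X₀ : Finset E, G.Nonempty → ρ (X₀ ∪ G)ᶜ = ρ univ → ∀ n,
      Acy (cx ρ (fun X => X₀ ⊆ X ∧ (X ∩ G).Nonempty)) n := by
  induction G using Finset.induction_on with
  | empty => intro X₀ hG; exact absurd hG (by simp)
  | insert g G hg ih =>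
    intro X₀ _ hρ n
    have hcone : ρ (insert g X₀)ᶜ = ρ univ := by
      refine span_mono h _ _ ?_ hρ
      rw [compl_subset_compl]
      intro x hx
      rw [mem_insert] at hx
      rw [mem_union, mem_insert]
      tauto
    rw [cx_congr (fam_union X₀ G g), ← cx_union]
    rcases G.eq_empty_or_nonempty with rfl | hne
    · have : cx ρ (fun X => X₀ ⊆ X ∧ (X ∩ (∅ : Finset E)).Nonempty) ⊆
          cx ρ (fun X => insert g X₀ ⊆ X) := by
        intro c hc
        cases c with
        | none => exact mem_cx_none
        | some σ =>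
          rw [mem_cx_some] at hc
          simp at hc
      rw [Set.union_eq_left.2 this]
      exact acy_super h _ hcone n
    · refine acy_union (k := n) (closed_cx h (up2 _)) (closed_cx h (up1 _ _)) (acy_super h _ hcone n)
        (ih X₀ hne ?_ n) ?_ (Nat.le_succ n)
      · refine span_mono h _ _ ?_ hρ
        rw [compl_subset_compl]
        exact union_subset_union_right (subset_insert _ _)
      · rw [cx_inter, cx_congr (fam_inter X₀ G g)]
        refine ih (insert g X₀) hne ?_ n
        have : insert g X₀ ∪ G = X₀ ∪ insert g G := by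
          ext x; simp only [mem_union, mem_insert]; tauto
        rw [this]
        exact hρ

lemma acy_B {ρ : Finset E → ℕ} (h : IsRank ρ) (k : ℕ) :
    ∀ (G X₀ : Finset E) (n : ℕ), G.card = k → ρ X₀ᶜ = ρ univ →
      n + X₀.card + ρ univ ≤ (X₀ ∪ G).card + ρ (X₀ ∪ G)ᶜ →
      Acy (cx ρ (fun X => X₀ ⊆ X ∧ (X ∩ G).Nonempty)) n := by
  induction k with
  | zero =>
    intro G X₀ n hG hX hn
    rw [card_eq_zero] at hG
    subst hG
    rw [union_empty, hX] at hn
    have : n = 0 := by omega
    subst this
    intro m hm
    omega
  | succ k ih =>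
    intro G X₀ n hG hX hn
    by_cases hdis : Disjoint X₀ G
    · by_cases hsp : ρ (X₀ ∪ G)ᶜ = ρ univ
      · exact acy_B0 h G X₀ (card_pos.1 (by omega)) hsp n
      · have hex : ∃ g ∈ G, ρ (X₀ ∪ G)ᶜ + 1 ≤ ρ (insert g (X₀ ∪ G)ᶜ) := by
          by_contra hcon
          have h1 := h.union_eq (X₀ ∪ G)ᶜ G (by
            intro g hg
            by_contra h2
            exact hcon ⟨g, hg, by omega⟩)
          have h2 : (X₀ ∪ G)ᶜ ∪ G = X₀ᶜ := by
            ext x
            have := fun hx : x ∈ X₀ => Finset.disjoint_left.1 hdis hx
            simp only [mem_union, mem_compl]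
            tauto
          rw [h2, hX] at h1
          exact hsp h1.symm
        obtain ⟨g, hg, hgρ⟩ := hex
        have hgX : g ∉ X₀ := fun hx => Finset.disjoint_left.1 hdis hx hg
        have hins : insert g (G.erase g) = G := insert_erase hg
        have hcard' : (G.erase g).card = k := by rw [card_erase_of_mem hg, hG]; rfl
        have hU : X₀ ∪ G.erase g = (X₀ ∪ G).erase g := by
          ext x
          simp only [mem_union, mem_erase]
          constructor
          · rintro (h1 | ⟨h1, h2⟩)
            · exact ⟨by rintro rfl; exact hgX h1, Or.inl h1⟩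
            · exact ⟨h1, Or.inr h2⟩
          · rintro ⟨h1, h2 | h2⟩
            · exact Or.inl h2
            · exact Or.inr ⟨h1, h2⟩
        have hUc : (X₀ ∪ G.erase g)ᶜ = insert g (X₀ ∪ G)ᶜ := by
          rw [hU, compl_erase]
        have hUcard : (X₀ ∪ G.erase g).card + 1 = (X₀ ∪ G).card := by
          rw [hU, card_erase_of_mem (mem_union_right _ hg)]
          have : 0 < (X₀ ∪ G).card := card_pos.2 ⟨g, mem_union_right _ hg⟩
          omega
        have hA2 : Acy (cx ρ (fun X => X₀ ⊆ X ∧ (X ∩ G.erase g).Nonempty)) n := by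
          refine ih (G.erase g) X₀ n hcard' hX ?_
          rw [hUc]
          omega
        by_cases hco : ρ (insert g X₀)ᶜ = ρ univ
        · rw [← hins, cx_congr (fam_union X₀ (G.erase g) g), ← cx_union]
          refine acy_union (k := n - 1) (closed_cx h (up2 _)) (closed_cx h (up1 _ _))
            (acy_super h _ hco n) hA2 ?_ (by omega)
          rw [cx_inter, cx_congr (fam_inter X₀ (G.erase g) g)]
          rcases Nat.eq_zero_or_pos n with rfl | hn0
          · intro m hm
            omega
          refine ih (G.erase g) (insert g X₀) (n - 1) hcard' hco ?_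
          have e1 : insert g X₀ ∪ G.erase g = X₀ ∪ G := by
            rw [insert_union, hU, insert_erase (mem_union_right _ hg)]
          rw [e1, card_insert_of_notMem hgX]
          omega
        · have : cx ρ (fun X => X₀ ⊆ X ∧ (X ∩ G).Nonempty)
              = cx ρ (fun X => X₀ ⊆ X ∧ (X ∩ G.erase g).Nonempty) := by
            ext c
            cases c with
            | none => simp [mem_cx_none]
            | some σ =>
              rw [mem_cx_some, mem_cx_some]
              constructor
              · rintro ⟨⟨h1, x, hx⟩, h2⟩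
                rw [mem_inter] at hx
                refine ⟨⟨h1, x, ?_⟩, h2⟩
                rw [mem_inter, mem_erase]
                refine ⟨hx.1, ?_, hx.2⟩
                rintro rfl
                apply hco
                refine span_mono h _ _ ?_ h2
                intro y hy
                rw [mem_fa] at hy
                rw [mem_compl, mem_insert]
                rintro (rfl | hy2)
                · have := hx.1
                  rw [mem_tr, hy] at this
                  revert this
                  decide
                · have := h1 hy2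
                  rw [mem_tr, hy] at this
                  revert this
                  decide
              · rintro ⟨⟨h1, h2⟩, h3⟩
                exact ⟨⟨h1, h2.mono (inter_subset_inter_left (erase_subset _ _))⟩, h3⟩
          rw [this]
          exact hA2
    · have : cx ρ (fun X => X₀ ⊆ X ∧ (X ∩ G).Nonempty) = cx ρ (fun X => X₀ ⊆ X) := by
        apply cx_congr
        intro X
        constructor
        · exact fun h => h.1
        · intro h1
          refine ⟨h1, ?_⟩
          rw [Finset.not_disjoint_iff] at hdis
          obtain ⟨x, hx1, hx2⟩ := hdis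
          exact ⟨x, mem_inter.2 ⟨h1 hx1, hx2⟩⟩
      rw [this]
      exact acy_super h X₀ hX n

/-! ### flats -/

/-- flats of a rank function -/
def Flat (ρ : Finset E → ℕ) (F : Finset E) : Prop := ∀ e, e ∉ F → ρ F < ρ (insert e F)

lemma flat_inter {ρ : Finset E → ℕ} (h : IsRank ρ) {F F' : Finset E} (hF : Flat ρ F)
    (hF' : Flat ρ F') : Flat ρ (F ∩ F') := by
  have key : ∀ A B : Finset E, Flat ρ A → ∀ e, e ∉ A → ρ (A ∩ B) < ρ (insert e (A ∩ B)) := by
    intro A B hA e he
    have h1 := hA e he
    have h2 := h.submod A (insert e (A ∩ B))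
    have h3 : A ∪ insert e (A ∩ B) = insert e A := by
      ext x; simp only [mem_union, mem_insert, mem_inter]; tauto
    have h4 : ρ (A ∩ B) ≤ ρ (A ∩ insert e (A ∩ B)) :=
      h.mono _ _ (subset_inter inter_subset_left (subset_insert _ _))
    rw [h3] at h2
    omega
  intro e he
  by_cases heF : e ∈ F
  · have heF' : e ∉ F' := fun h1 => he (mem_inter.2 ⟨heF, h1⟩)
    have := key F' F hF' e heF'
    rwa [inter_comm F' F] at this
  · exact key F F' hF e heF

lemma flat_lt {ρ : Finset E → ℕ} (h : IsRank ρ) {F A : Finset E} (hF : Flat ρ F)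
    (hFA : F ⊆ A) (hne : ¬ A ⊆ F) : ρ F < ρ A := by
  obtain ⟨x, hx, hxF⟩ := Finset.not_subset.1 hne
  exact lt_of_lt_of_le (hF x hxF) (h.mono _ _ (insert_subset hx hFA))

lemma exists_flat {ρ : Finset E → ℕ} (h : IsRank ρ) (X : Finset E) :
    ∃ F, Flat ρ F ∧ X ⊆ F ∧ ρ F = ρ X := by
  have hne : (univ.filter (fun F : Finset E => X ⊆ F ∧ ρ F = ρ X)).Nonempty :=
    ⟨X, by simp⟩
  obtain ⟨F, hF, hmax⟩ := Finset.exists_max_image _ Finset.card hne
  rw [mem_filter] at hF
  refine ⟨F, ?_, hF.2.1, hF.2.2⟩
  intro e he
  by_contra hcon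
  have h1 : ρ (insert e F) = ρ X :=
    le_antisymm (by rw [← hF.2.2]; omega) (h.mono _ _ (hF.2.1.trans (subset_insert _ _)))
  have h2 := hmax (insert e F) (by
    rw [mem_filter]
    exact ⟨mem_univ _, hF.2.1.trans (subset_insert _ _), h1⟩)
  rw [card_insert_of_notMem he] at h2
  omega

lemma acy_C {ρ : Finset E → ℕ} (h : IsRank ρ) (q : ℕ) :
    ∀ (m : ℕ) (D : Finset (Finset E)), (∀ F ∈ D, Flat ρ F ∧ ρ F ≤ q) →
      (∀ F, Flat ρ F → ρ F ≤ q → Acy (cx ρ (fun X => ¬ X ⊆ F)) (m + q - ρ F)) →
      Acy (cx ρ (fun X => ∀ F ∈ D, ¬ X ⊆ F)) m := by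
  have upn : ∀ F A B : Finset E, A ⊆ B → ¬ A ⊆ F → ¬ B ⊆ F :=
    fun F A B hAB hA hB => hA (hAB.trans hB)
  have upD : ∀ D : Finset (Finset E), ∀ A B : Finset E, A ⊆ B → (∀ F ∈ D, ¬ A ⊆ F) →
      ∀ F ∈ D, ¬ B ⊆ F := fun D A B hAB hA F hF => upn F A B hAB (hA F hF)
  induction q with
  | zero =>
    intro m D
    induction D using Finset.induction_on with
    | empty =>
      intro _ _
      have : cx ρ (fun X => ∀ F ∈ (∅ : Finset (Finset E)), ¬ X ⊆ F)
          = cx ρ (fun X => (∅ : Finset E) ⊆ X) := cx_congr (by simp)
      rw [this]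
      exact acy_super h ∅ (by simp) m
    | insert F D hFD ih =>
      intro hD hH
      have ih' := ih (fun G hG => hD G (mem_insert_of_mem hG)) hH
      by_cases hex : ∃ F' ∈ D, F ⊆ F'
      · have : cx ρ (fun X => ∀ G ∈ insert F D, ¬ X ⊆ G) = cx ρ (fun X => ∀ G ∈ D, ¬ X ⊆ G) := by
          apply cx_congr
          intro X
          constructor
          · intro h1 G hG; exact h1 G (mem_insert_of_mem hG)
          · intro h1 G hG
            rcases mem_insert.1 hG with rfl | hG
            · obtain ⟨F', hF', hle⟩ := hex
              exact fun h2 => h1 F' hF' (h2.trans hle)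
            · exact h1 G hG
        rw [this]
        exact ih'
      · have hDe : D = ∅ := by
          rw [eq_empty_iff_forall_notMem]
          intro F' hF'
          have h1 : ¬ F ⊆ F ∩ F' := fun h2 => hex ⟨F', hF', h2.trans inter_subset_right⟩
          have h2 := flat_lt h (flat_inter h (hD F (mem_insert_self _ _)).1
            (hD F' (mem_insert_of_mem hF')).1) inter_subset_left h1
          have h3 := (hD F (mem_insert_self _ _)).2
          omega
        subst hDe
        have : cx ρ (fun X => ∀ G ∈ insert F (∅ : Finset (Finset E)), ¬ X ⊆ G)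
            = cx ρ (fun X => ¬ X ⊆ F) := cx_congr (by simp)
        rw [this]
        have h1 := hD F (mem_insert_self _ _)
        exact (hH F h1.1 h1.2).mono (by omega)
  | succ q ihq =>
    intro m D
    induction D using Finset.induction_on with
    | empty =>
      intro _ _
      have : cx ρ (fun X => ∀ F ∈ (∅ : Finset (Finset E)), ¬ X ⊆ F)
          = cx ρ (fun X => (∅ : Finset E) ⊆ X) := cx_congr (by simp)
      rw [this]
      exact acy_super h ∅ (by simp) m
    | insert F D hFD ih =>
      intro hD hH
      have ih' := ih (fun G hG => hD G (mem_insert_of_mem hG)) hH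
      have hFf := hD F (mem_insert_self _ _)
      by_cases hex : ∃ F' ∈ D, F ⊆ F'
      · have : cx ρ (fun X => ∀ G ∈ insert F D, ¬ X ⊆ G) = cx ρ (fun X => ∀ G ∈ D, ¬ X ⊆ G) := by
          apply cx_congr
          intro X
          constructor
          · intro h1 G hG; exact h1 G (mem_insert_of_mem hG)
          · intro h1 G hG
            rcases mem_insert.1 hG with rfl | hG
            · obtain ⟨F', hF', hle⟩ := hex
              exact fun h2 => h1 F' hF' (h2.trans hle)
            · exact h1 G hG
        rw [this]
        exact ih'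
      · have e1 : cx ρ (fun X => ∀ G ∈ insert F D, ¬ X ⊆ G)
            = cx ρ (fun X => ∀ G ∈ D, ¬ X ⊆ G) ∩ cx ρ (fun X => ¬ X ⊆ F) := by
          rw [cx_inter]
          apply cx_congr
          intro X
          simp only [mem_insert, forall_eq_or_imp]
          tauto
        have e2 : cx ρ (fun X => ∀ G ∈ D, ¬ X ⊆ G) ∪ cx ρ (fun X => ¬ X ⊆ F)
            = cx ρ (fun X => ∀ G ∈ D.image (fun F' => F ∩ F'), ¬ X ⊆ G) := by
          rw [cx_union]
          apply cx_congr
          intro X
          simp only [mem_image, forall_exists_index, and_imp, forall_apply_eq_imp_iff₂,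
            subset_inter_iff]
          constructor
          · rintro (h1 | h1) G hG ⟨h2, h3⟩
            · exact h1 G hG h3
            · exact h1 h2
          · intro h1
            by_cases h2 : X ⊆ F
            · left
              intro G hG h3
              exact h1 G hG ⟨h2, h3⟩
            · right; exact h2
        rw [e1]
        refine acy_inter (closed_cx h (upD _)) (closed_cx h (upn _)) ih' ?_ ?_
        · exact (hH F hFf.1 hFf.2).mono (by omega)
        · rw [e2]
          apply ihq
          · intro G hG
            rw [mem_image] at hG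
            obtain ⟨F', hF', rfl⟩ := hG
            have h1 : ¬ F ⊆ F ∩ F' := fun h2 => hex ⟨F', hF', h2.trans inter_subset_right⟩
            have h2 := flat_inter h hFf.1 (hD F' (mem_insert_of_mem hF')).1
            have h3 := flat_lt h h2 inter_subset_left h1
            exact ⟨h2, by omega⟩
          · intro G hG hGq
            exact (hH G hG (by omega)).mono (by omega)

/-- The main acyclicity statement. -/
lemma acy_main {ρ : Finset E → ℕ} (h : IsRank ρ) (q m : ℕ)
    (hH : ∀ F, Flat ρ F → ρ F ≤ q → m + q + ρ univ ≤ Fᶜ.card + 2 * ρ F) :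
    Acy (cx ρ (fun X => q < ρ X)) m := by
  classical
  have h1 := acy_C h q m (univ.filter (fun F => Flat ρ F ∧ ρ F ≤ q))
    (fun F hF => (mem_filter.1 hF).2) (by
      intro F hF hFq
      have h2 := acy_B h (Fᶜ).card Fᶜ ∅ (m + q - ρ F) rfl (by simp) (by
        have := hH F hF hFq
        simp only [card_empty, empty_union, compl_compl]
        omega)
      have h3 : cx ρ (fun X => ∅ ⊆ X ∧ (X ∩ Fᶜ).Nonempty) = cx ρ (fun X => ¬ X ⊆ F) := by
        apply cx_congr
        intro X
        rw [Finset.not_subset]
        constructor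
        · rintro ⟨-, x, hx⟩
          rw [mem_inter, mem_compl] at hx
          exact ⟨x, hx⟩
        · rintro ⟨x, hx1, hx2⟩
          exact ⟨empty_subset _, x, mem_inter.2 ⟨hx1, mem_compl.2 hx2⟩⟩
      rwa [h3] at h2)
  have h2 : cx ρ (fun X => ∀ F ∈ univ.filter (fun F => Flat ρ F ∧ ρ F ≤ q), ¬ X ⊆ F)
      = cx ρ (fun X => q < ρ X) := by
    apply cx_congr
    intro X
    constructor
    · intro h3
      by_contra h4
      obtain ⟨F, hF1, hF2, hF3⟩ := exists_flat h X
      exact h3 F (mem_filter.2 ⟨mem_univ _, hF1, by omega⟩) hF2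
    · intro h3 F hF h4
      have h5 := (mem_filter.1 hF).2.2
      have h6 := h.mono _ _ h4
      omega
  rwa [h2] at h1

end Pool.Agent.Helper68.Borsuk
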