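import Mathlib
import Pool.Agent.Helper68.BorsukCore

namespace Pool.Agent.Helper68.Borsuk

open Finset

set_option linter.unusedSectionVars false

variable {E : Type*} [Fintype E] [DecidableEq E]

/-- coboundary -/
def cob (g : (E → SignType) → ZMod 2) (σ : E → SignType) : ZMod 2 :=
  ∑ e ∈ fr σ, (g (Function.update σ e 1) + g (Function.update σ e (-1)))

/-- adjointness of `cob` and `bd` -/
lemma adj (g : (E → SignType) → ZMod 2) (z : Option (E → SignType) → ZMod 2) :
    ∑ σ, cob g σ * z (some σ) = ∑ τ, g τ * bd z (some τ) := by
  have hL : ∑ σ, cob g σ * z (some σ) = ∑ e : E, ∑ σ ∈ univ.filter (fun σ : E → SignType => σ e = 0),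
      (g (Function.update σ e 1) + g (Function.update σ e (-1))) * z (some σ) := by
    simp only [cob, Finset.sum_mul]
    rw [Finset.sum_sigma', Finset.sum_sigma']
    refine Finset.sum_nbij' (fun p => ⟨p.2, p.1⟩) (fun p => ⟨p.2, p.1⟩) ?_ ?_ ?_ ?_ ?_
    · rintro ⟨σ, e⟩ h
      simpa using h
    · rintro ⟨e, σ⟩ h
      simpa using h
    · rintro ⟨σ, e⟩ _; rfl
    · rintro ⟨e, σ⟩ _; rfl
    · rintro ⟨σ, e⟩ _; rfl
  have hR : ∑ τ, g τ * bd z (some τ) = ∑ e : E, ∑ τ ∈ univ.filter (fun τ : E → SignType => τ e ≠ 0),
      g τ * z (some (Function.update τ e 0)) := by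
    simp only [bd, Finset.mul_sum]
    rw [Finset.sum_sigma', Finset.sum_sigma']
    refine Finset.sum_nbij' (fun p => ⟨p.2, p.1⟩) (fun p => ⟨p.2, p.1⟩) ?_ ?_ ?_ ?_ ?_
    · rintro ⟨σ, e⟩ h
      simpa using h
    · rintro ⟨e, σ⟩ h
      simpa using h
    · rintro ⟨σ, e⟩ _; rfl
    · rintro ⟨e, σ⟩ _; rfl
    · rintro ⟨σ, e⟩ _; rfl
  rw [hL, hR]
  apply Finset.sum_congr rfl
  intro e _
  have hsplit : univ.filter (fun τ : E → SignType => τ e ≠ 0)
      = univ.filter (fun τ : E → SignType => τ e = 1) ∪
        univ.filter (fun τ : E → SignType => τ e = -1) := by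
    ext τ
    simp only [mem_filter, mem_univ, true_and, mem_union]
    cases τ e <;> decide
  have hdisj : Disjoint (univ.filter (fun τ : E → SignType => τ e = 1))
      (univ.filter (fun τ : E → SignType => τ e = -1)) := by
    rw [Finset.disjoint_left]
    intro τ h1 h2
    rw [mem_filter] at h1 h2
    rw [h1.2] at h2
    exact absurd h2.2 (by decide)
  rw [hsplit, Finset.sum_union hdisj]
  simp only [add_mul]
  rw [Finset.sum_add_distrib]
  have hone : ∀ s : SignType, s ≠ 0 →
      ∑ σ ∈ univ.filter (fun σ : E → SignType => σ e = 0),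
        g (Function.update σ e s) * z (some σ)
      = ∑ τ ∈ univ.filter (fun τ : E → SignType => τ e = s),
        g τ * z (some (Function.update τ e 0)) := by
    intro s hs
    refine Finset.sum_nbij' (fun σ => Function.update σ e s) (fun τ => Function.update τ e 0)
      ?_ ?_ ?_ ?_ ?_
    · intro σ _
      simp
    · intro τ _
      simp
    · intro σ hσ
      have : σ e = 0 := (mem_filter.1 hσ).2
      simp only [Function.update_idem]
      rw [← this, Function.update_eq_self]
    · intro τ hτ
      have : τ e = s := (mem_filter.1 hτ).2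
      simp only [Function.update_idem]
      rw [← this, Function.update_eq_self]
    · intro σ hσ
      have : σ e = 0 := (mem_filter.1 hσ).2
      simp only [Function.update_idem]
      rw [← this, Function.update_eq_self]
  rw [hone 1 (by decide), hone (-1) (by decide)]

lemma cob_cob (g : (E → SignType) → ZMod 2) : cob (cob g) = 0 := by
  funext σ
  have h := adj (cob g) (fun c => if c = some σ then 1 else 0)
  have h2 := adj g (bd (fun c => if c = some σ then 1 else 0))
  rw [bd_bd] at h2
  rw [h2] at h
  simp only [Option.some.injEq, mul_ite, mul_one, mul_zero, Finset.sum_ite_eq', mem_univ,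
    if_true, Pi.zero_apply, Finset.sum_const_zero] at h
  simpa using h

/-- iterated product of the coboundaries of the functions of a list -/
def V : List ((E → SignType) → ZMod 2) → (E → SignType) → ZMod 2
  | [] => fun _ => 1
  | u :: L => cob (fun τ => u τ * V L τ)

lemma cob_V (L : List ((E → SignType) → ZMod 2)) : cob (V L) = 0 := by
  cases L with
  | nil =>
    funext σ
    simp only [cob, V]
    apply Finset.sum_eq_zero
    intro e _
    exact CharTwo.add_self_eq_zero _
  | cons u L => exact cob_cob _

lemma V_cons (u : (E → SignType) → ZMod 2) (L : List ((E → SignType) → ZMod 2))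
    (σ : E → SignType) :
    V (u :: L) σ = ∑ e ∈ fr σ, ((u (Function.update σ e 1) + u σ) * V L (Function.update σ e 1) +
      (u (Function.update σ e (-1)) + u σ) * V L (Function.update σ e (-1))) := by
  have h1 : u σ * cob (V L) σ = 0 := by rw [cob_V]; simp
  have h2 : V (u :: L) σ = V (u :: L) σ + u σ * cob (V L) σ := by rw [h1, add_zero]
  rw [h2]
  simp only [V, cob, Finset.mul_sum]
  rw [← Finset.sum_add_distrib]
  apply Finset.sum_congr rfl
  intro e _
  ring

lemma V_ne_zero (L : List ((E → SignType) → ZMod 2)) :
    ∀ σ : E → SignType, V L σ ≠ 0 → ∀ u ∈ L, ∃ q q' : E → SignType,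
      (∀ e, σ e ≠ 0 → q e = σ e) ∧ (∀ e, σ e ≠ 0 → q' e = σ e) ∧ u q ≠ u q' := by
  induction L with
  | nil => intro σ _ u hu; simp at hu
  | cons u L ih =>
    intro σ hσ v hv
    rw [V_cons] at hσ
    obtain ⟨e, he, h⟩ := Finset.exists_ne_zero_of_sum_ne_zero hσ
    have hex : ∃ s : SignType, (u (Function.update σ e s) + u σ) * V L (Function.update σ e s) ≠ 0 := by
      by_contra hcon
      have h1 : ∀ s : SignType,
          (u (Function.update σ e s) + u σ) * V L (Function.update σ e s) = 0 := by
        intro s
        by_contra h2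
        exact hcon ⟨s, h2⟩
      rw [h1, h1, add_zero] at h
      exact h rfl
    obtain ⟨s, hs⟩ := hex
    have hs1 := left_ne_zero_of_mul hs
    have hs2 := right_ne_zero_of_mul hs
    have hle : ∀ f, σ f ≠ 0 → Function.update σ e s f = σ f := by
      intro f hf
      rw [Function.update_of_ne]
      rintro rfl
      exact hf (by simpa using he)
    rcases List.mem_cons.1 hv with rfl | hv'
    · refine ⟨Function.update σ e s, σ, hle, fun _ _ => rfl, ?_⟩
      intro heq
      rw [heq] at hs1
      exact hs1 (CharTwo.add_self_eq_zero _)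
    · obtain ⟨q, q', h1, h2, h3⟩ := ih _ hs2 v hv'
      refine ⟨q, q', ?_, ?_, h3⟩
      · intro f hf
        rw [h1 f (by rw [hle f hf]; exact hf), hle f hf]
      · intro f hf
        rw [h2 f (by rw [hle f hf]; exact hf), hle f hf]

/-- the antipodal map on chains -/
def tw (z : Option (E → SignType) → ZMod 2) : Option (E → SignType) → ZMod 2
  | none => z none
  | some σ => z (some (-σ))

lemma tr_neg (σ : E → SignType) : tr (-σ) = fa σ := by
  ext e
  simp only [mem_tr, mem_fa, Pi.neg_apply]
  cases σ e <;> decide

lemma fa_neg (σ : E → SignType) : fa (-σ) = tr σ := by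
  ext e
  simp only [mem_tr, mem_fa, Pi.neg_apply]
  cases σ e <;> decide

lemma fr_neg (σ : E → SignType) : fr (-σ) = fr σ := by
  ext e
  simp only [mem_fr, Pi.neg_apply]
  cases σ e <;> decide

lemma neg_update (σ : E → SignType) (e : E) (s : SignType) :
    -(Function.update σ e s) = Function.update (-σ) e (-s) := by
  funext f
  by_cases h : f = e
  · subst h; simp
  · simp [h]

lemma dm_neg (σ : E → SignType) : dm (some (-σ)) = dm (some σ) := by
  simp only [dm, fr_neg]

lemma neg_neg' (σ : E → SignType) : -(-σ) = σ := by
  funext e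
  simp only [Pi.neg_apply]
  cases σ e <;> decide

lemma tw_tw (z : Option (E → SignType) → ZMod 2) : tw (tw z) = z := by
  funext c
  cases c with
  | none => rfl
  | some σ => simp only [tw, neg_neg']

lemma tw_add (z w : Option (E → SignType) → ZMod 2) : tw (z + w) = tw z + tw w := by
  funext c
  cases c <;> rfl

/-- negation as a permutation of the cells -/
def negEquiv (E : Type*) : (E → SignType) ≃ (E → SignType) where
  toFun σ := -σ
  invFun σ := -σ
  left_inv σ := by
    funext e
    simp only [Pi.neg_apply]
    cases σ e <;> decide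
  right_inv σ := by
    funext e
    simp only [Pi.neg_apply]
    cases σ e <;> decide

lemma bd_tw (z : Option (E → SignType) → ZMod 2) : bd (tw z) = tw (bd z) := by
  funext c
  cases c with
  | none =>
    simp only [bd, tw]
    refine Finset.sum_nbij' (fun σ => -σ) (fun σ => -σ) ?_ ?_ ?_ ?_ ?_
    · intro σ h
      simpa [fr_neg] using h
    · intro σ h
      simpa [fr_neg] using h
    · intro σ _; exact neg_neg' σ
    · intro σ _; exact neg_neg' σ
    · intro σ _; rfl
  | some σ =>
    simp only [bd, tw]
    have : univ.filter (fun e => (-σ) e ≠ 0) = univ.filter (fun e => σ e ≠ 0) := by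
      ext e
      simp only [mem_filter, mem_univ, true_and, Pi.neg_apply]
      cases σ e <;> decide
    rw [this]
    apply Finset.sum_congr rfl
    intro e _
    rw [neg_update]
    rfl

lemma V_neg {S : Set (Option (E → SignType))} (hS : Closed S)
    (L : List ((E → SignType) → ZMod 2))
    (hL : ∀ u ∈ L, ∀ σ, some σ ∈ S → u (-σ) = u σ + 1) :
    ∀ σ, some σ ∈ S → V L (-σ) = V L σ := by
  induction L with
  | nil => intro σ _; rfl
  | cons u L ih =>
    intro σ hσ
    have hu := hL u (List.mem_cons_self)
    have ih' := ih (fun v hv => hL v (List.mem_cons_of_mem _ hv))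
    have hface : ∀ e ∈ fr σ, ∀ s : SignType, s ≠ 0 → some (Function.update σ e s) ∈ S := by
      intro e he s hs
      apply hS.2 (Function.update σ e s) e (by simpa using hs)
      rw [Function.update_idem]
      have : σ e = 0 := by simpa using he
      rw [← this, Function.update_eq_self]
      exact hσ
    have h0 : V (u :: L) (-σ) = V (u :: L) σ + cob (V L) σ := by
      simp only [V, cob, fr_neg]
      rw [← Finset.sum_add_distrib]
      apply Finset.sum_congr rfl
      intro e he
      have e1 : Function.update (-σ) e 1 = -(Function.update σ e (-1)) := by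
        rw [neg_update]; rfl
      have e2 : Function.update (-σ) e (-1) = -(Function.update σ e 1) := by
        rw [neg_update]
      rw [e1, e2, hu _ (hface e he (-1) (by decide)), hu _ (hface e he 1 (by decide)),
        ih' _ (hface e he (-1) (by decide)), ih' _ (hface e he 1 (by decide))]
      ring
    rw [h0, cob_V]
    simp

/-- existence of the chains witnessing a large index -/
lemma exists_chain {S : Set (Option (E → SignType))} (hS : Closed S)
    (hT : ∀ σ, some σ ∈ S → some (-σ) ∈ S) (c : ℕ) (hA : Acy S (c + 1)) :
    ∀ i ≤ c, ∃ z : Option (E → SignType) → ZMod 2, (∀ x, z x ≠ 0 → x ∈ S ∧ dm x = i + 1) ∧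
      bd (z + tw z) = 0 ∧
      ∀ L : List ((E → SignType) → ZMod 2), L.length = i →
        (∀ u ∈ L, ∀ σ, some σ ∈ S → u (-σ) = u σ + 1) → ∑ σ, V L σ * z (some σ) = 1 := by
  intro i
  induction i with
  | zero =>
    intro _
    obtain ⟨z, hz, hb⟩ := hA 0 (by omega) (fun x => if x = none then 1 else 0)
      (by
        intro x hx
        change (if x = none then (1 : ZMod 2) else 0) ≠ 0 at hx
        split_ifs at hx with h
        · subst h
          exact ⟨hS.1, rfl⟩
        · exact absurd rfl hx)
      (by
        funext x
        cases x with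
        | none => simp [bd]
        | some σ => simp [bd])
    refine ⟨z, hz, ?_, ?_⟩
    · rw [bd_add, bd_tw, hb]
      funext x
      cases x with
      | none =>
        simp only [Pi.add_apply, tw]
        exact CharTwo.add_self_eq_zero _
      | some σ =>
        change (if (some σ : Option (E → SignType)) = none then (1 : ZMod 2) else 0) +
          (if (some (-σ) : Option (E → SignType)) = none then (1 : ZMod 2) else 0) = 0
        rw [if_neg (by simp), if_neg (by simp), add_zero]
    · intro L hL _
      rw [List.length_eq_zero_iff] at hL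
      subst hL
      simp only [V, one_mul]
      have h1 := congrFun hb none
      simp only [bd, if_true] at h1
      rw [← h1, Finset.sum_filter_of_ne]
      intro σ _ hne
      have := (hz _ hne).2
      simp only [dm] at this
      rw [← card_eq_zero]
      omega
  | succ i ih =>
    intro hi
    obtain ⟨z, hz, hbz, hV⟩ := ih (by omega)
    have hztw : ∀ x, tw z x ≠ 0 → x ∈ S ∧ dm x = i + 1 := by
      intro x hx
      cases x with
      | none => exact hz none hx
      | some σ =>
        have h1 := hz (some (-σ)) hx
        rw [dm_neg] at h1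
        refine ⟨?_, h1.2⟩
        have h2 := hT _ h1.1
        rwa [neg_neg'] at h2
    obtain ⟨w, hw, hbw⟩ := hA (i + 1) (by omega) (z + tw z) (add_supp hz hztw) hbz
    refine ⟨w, hw, ?_, ?_⟩
    · rw [bd_add, bd_tw, hbw, tw_add, tw_tw, add_comm (tw z) z, add_self]
    · intro L hL hanti
      obtain ⟨u, L', rfl⟩ : ∃ u L', L = u :: L' := by
        cases L with
        | nil => simp at hL
        | cons u L' => exact ⟨u, L', rfl⟩
      have hL' : L'.length = i := by simpa using hL
      have hanti' : ∀ v ∈ L', ∀ σ, some σ ∈ S → v (-σ) = v σ + 1 :=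
        fun v hv => hanti v (List.mem_cons_of_mem _ hv)
      have hu := hanti u List.mem_cons_self
      rw [← hV L' hL' hanti']
      have e1 := adj (fun τ => u τ * V L' τ) w
      rw [hbw] at e1
      change ∑ σ, V (u :: L') σ * w (some σ) = _ at e1
      rw [e1]
      simp only [Pi.add_apply, mul_add, Finset.sum_add_distrib, tw]
      have e2 : ∑ σ, u σ * V L' σ * z (some (-σ)) = ∑ σ, u (-σ) * V L' (-σ) * z (some σ) := by
        refine Fintype.sum_equiv (negEquiv E) _ _ ?_
        intro σ
        change u σ * V L' σ * z (some (-σ)) = u (-(-σ)) * V L' (-(-σ)) * z (some (-σ))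
        rw [neg_neg']
      rw [e2, ← Finset.sum_add_distrib]
      apply Finset.sum_congr rfl
      intro σ _
      by_cases h0 : z (some σ) = 0
      · rw [h0]; simp
      · have hσS := (hz _ h0).1
        rw [hu σ hσS, V_neg hS L' hanti' σ hσS]
        have : ∀ a b d : ZMod 2, a * b * d + (a + 1) * b * d = b * d := by decide
        exact this _ _ _

end Pool.Agent.Helper68.Borsuk
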