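import Mathlib
import Pool.Agent.Helper68.BorsukEval

namespace Pool.Agent.Helper68.Borsuk

open Finset

set_option linter.unusedSectionVars false

variable {E : Type*} [Fintype E] [DecidableEq E]

/-- bases of a rank function -/
def Base (ρ : Finset E → ℕ) (B : Finset E) : Prop := ρ B = ρ univ ∧ B.card = ρ univ

lemma IsRank.le_card {ρ : Finset E → ℕ} (h : IsRank ρ) (A : Finset E) : ρ A ≤ A.card := by
  induction A using Finset.induction_on with
  | empty => simp [h.empty]
  | insert e A he ih =>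
    rw [card_insert_of_notMem he]
    exact (h.insert_le A e).trans (by omega)

lemma IsRank.exists_basis {ρ : Finset E → ℕ} (h : IsRank ρ) (A : Finset E) :
    ∃ B ⊆ A, ρ B = ρ A ∧ B.card = ρ A := by
  induction A using Finset.induction_on with
  | empty => exact ⟨∅, subset_rfl, rfl, by simp [h.empty]⟩
  | insert e A he ih =>
    obtain ⟨B, hBA, hB1, hB2⟩ := ih
    have h1 := h.insert_le A e
    have h2 := h.mono A (insert e A) (subset_insert _ _)
    by_cases heq : ρ (insert e A) = ρ A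
    · exact ⟨B, hBA.trans (subset_insert _ _), by rw [hB1, heq], by rw [hB2, heq]⟩
    · have h3 : ρ (insert e A) = ρ A + 1 := by omega
      have heB : e ∉ B := fun h4 => he (hBA h4)
      refine ⟨insert e B, insert_subset_insert _ hBA, ?_, ?_⟩
      · have h4 := h.submod A (insert e B)
        have h5 : A ∪ insert e B = insert e A := by
          ext x
          have := @hBA x
          simp only [mem_union, mem_insert]
          tauto
        have h6 : ρ B ≤ ρ (A ∩ insert e B) :=
          h.mono _ _ (subset_inter hBA (subset_insert _ _))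
        have h7 := h.mono _ _ (insert_subset_insert e hBA)
        rw [h5] at h4
        omega
      · rw [card_insert_of_notMem heB, hB2, h3]

lemma IsRank.exists_base_of_span {ρ : Finset E → ℕ} (h : IsRank ρ) (A : Finset E)
    (hA : ρ A = ρ univ) : ∃ B ⊆ A, Base ρ B := by
  obtain ⟨B, h1, h2, h3⟩ := h.exists_basis A
  exact ⟨B, h1, by rw [h2, hA], by rw [h3, hA]⟩

open Classical in
/-- The function used for the colour `j`. -/
noncomputable def colFun (ρ : Finset E → ℕ) (κ : Finset E → ℕ) (j : ℕ) (σ : E → SignType) :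
    ZMod 2 :=
  if ∃ B ⊆ tr σ, Base ρ B ∧ κ B = j then 1
  else if ∃ B ⊆ fa σ, Base ρ B ∧ κ B = j then 0
  else if (Fintype.equivFin (E → SignType)) σ < (Fintype.equivFin (E → SignType)) (-σ) then 1
  else 0

theorem lower_bound {ρ : Finset E → ℕ} (h : IsRank ρ) (hR : 0 < ρ univ) (c : ℕ)
    (hF : ∀ F, Flat ρ F → ρ F < ρ univ → 2 * ρ univ + c ≤ Fᶜ.card + 2 * ρ F)
    (κ : Finset E → ℕ) (hκ : ∀ B, Base ρ B → κ B ≤ c) :
    ∃ B B', Base ρ B ∧ Base ρ B' ∧ Disjoint B B' ∧ κ B = κ B' := by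
  by_contra hcon
  have hne : ∀ B B', Base ρ B → Base ρ B' → Disjoint B B' → κ B ≠ κ B' :=
    fun B B' h1 h2 h3 h4 => hcon ⟨B, B', h1, h2, h3, h4⟩
  have hdisj : ∀ σ : E → SignType, Disjoint (tr σ) (fa σ) := by
    intro σ
    rw [Finset.disjoint_left]
    intro e h1 h2
    rw [mem_tr] at h1
    rw [mem_fa, h1] at h2
    exact absurd h2 (by decide)
  have hacy := acy_main h (ρ univ - 1) (c + 1) (by
    intro F h1 h2
    have := hF F h1 (by omega)
    omega)
  set K := cx ρ (fun X => ρ univ - 1 < ρ X) with hK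
  have hKmem : ∀ σ, some σ ∈ K ↔ ρ (tr σ) = ρ univ ∧ ρ (fa σ) = ρ univ := by
    intro σ
    rw [hK, mem_cx_some]
    have := h.mono (tr σ) univ (subset_univ _)
    constructor
    · rintro ⟨h1, h2⟩; exact ⟨by omega, h2⟩
    · rintro ⟨h1, h2⟩; exact ⟨by omega, h2⟩
  have hcl : Closed K := closed_cx h (fun A B hAB hA => lt_of_lt_of_le hA (h.mono _ _ hAB))
  have hT : ∀ σ, some σ ∈ K → some (-σ) ∈ K := by
    intro σ hσ
    rw [hKmem] at hσ ⊢
    rw [tr_neg, fa_neg]
    exact ⟨hσ.2, hσ.1⟩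
  obtain ⟨z, hz, -, hV⟩ := exists_chain hcl hT c hacy c le_rfl
  set L : List ((E → SignType) → ZMod 2) := (List.range c).map (colFun ρ κ) with hL
  have hanti : ∀ u ∈ L, ∀ σ, some σ ∈ K → u (-σ) = u σ + 1 := by
    intro u hu σ hσ
    rw [hL, List.mem_map] at hu
    obtain ⟨j, -, rfl⟩ := hu
    rw [hKmem] at hσ
    unfold colFun
    rw [tr_neg, fa_neg, neg_neg']
    by_cases h1 : ∃ B ⊆ tr σ, Base ρ B ∧ κ B = j
    · have h2 : ¬ ∃ B ⊆ fa σ, Base ρ B ∧ κ B = j := by
        rintro ⟨B', h3, h4, h5⟩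
        obtain ⟨B, h6, h7, h8⟩ := h1
        exact hne B B' h7 h4 (Disjoint.mono h6 h3 (hdisj σ)) (by rw [h8, h5])
      rw [if_neg h2, if_pos h1, if_pos h1]
      decide
    · rw [if_neg h1, if_neg h1]
      by_cases h2 : ∃ B ⊆ fa σ, Base ρ B ∧ κ B = j
      · rw [if_pos h2, if_pos h2]
        decide
      · rw [if_neg h2, if_neg h2]
        have hneq : (Fintype.equivFin (E → SignType)) σ ≠ (Fintype.equivFin (E → SignType)) (-σ) := by
          intro heq
          have h3 := (Fintype.equivFin (E → SignType)).injective heq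
          have h4 : tr σ = fa σ := by
            conv_lhs => rw [h3]
            exact tr_neg σ
          have h5 : tr σ = ∅ := by
            have h6 := hdisj σ
            rw [← h4] at h6
            exact disjoint_self.1 h6
          have h7 := hσ.1
          rw [h5, h.empty] at h7
          omega
        rcases lt_or_gt_of_ne hneq with h3 | h3
        · rw [if_pos h3, if_neg (not_lt.2 h3.le)]
          decide
        · rw [if_pos h3, if_neg (not_lt.2 h3.le)]
          decide
  have hsum := hV L (by simp [hL]) hanti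
  obtain ⟨σ, _, hσ⟩ := Finset.exists_ne_zero_of_sum_ne_zero (by rw [hsum]; decide :
    ∑ σ, V L σ * z (some σ) ≠ 0)
  have hσ1 := left_ne_zero_of_mul hσ
  have hσ2 := (hz _ (right_ne_zero_of_mul hσ)).1
  rw [hKmem] at hσ2
  obtain ⟨B, hB1, hB2⟩ := h.exists_base_of_span _ hσ2.1
  obtain ⟨B', hB1', hB2'⟩ := h.exists_base_of_span _ hσ2.2
  have hcol := hne B B' hB2 hB2' (Disjoint.mono hB1 hB1' (hdisj σ))
  have hle1 := hκ B hB2
  have hle2 := hκ B' hB2'
  have htr : ∀ q : E → SignType, (∀ e, σ e ≠ 0 → q e = σ e) → tr σ ⊆ tr q := by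
    intro q hq e he
    rw [mem_tr] at he ⊢
    rw [hq e (by rw [he]; decide), he]
  have hfa : ∀ q : E → SignType, (∀ e, σ e ≠ 0 → q e = σ e) → fa σ ⊆ fa q := by
    intro q hq e he
    rw [mem_fa] at he ⊢
    rw [hq e (by rw [he]; decide), he]
  rcases Nat.lt_or_ge (κ B) c with hlt | hge
  · obtain ⟨q, q', hq, hq', hqq⟩ := V_ne_zero L σ hσ1 (colFun ρ κ (κ B)) (by
      rw [hL, List.mem_map]
      exact ⟨κ B, List.mem_range.2 hlt, rfl⟩)
    apply hqq
    have h1 : ∀ p : E → SignType, (∀ e, σ e ≠ 0 → p e = σ e) → colFun ρ κ (κ B) p = 1 := by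
      intro p hp
      unfold colFun
      rw [if_pos ⟨B, hB1.trans (htr p hp), hB2, rfl⟩]
    rw [h1 q hq, h1 q' hq']
  · have hlt : κ B' < c := by omega
    obtain ⟨q, q', hq, hq', hqq⟩ := V_ne_zero L σ hσ1 (colFun ρ κ (κ B')) (by
      rw [hL, List.mem_map]
      exact ⟨κ B', List.mem_range.2 hlt, rfl⟩)
    apply hqq
    have h1 : ∀ p : E → SignType, (∀ e, σ e ≠ 0 → p e = σ e) → colFun ρ κ (κ B') p = 0 := by
      intro p hp
      unfold colFun
      rw [if_neg, if_pos ⟨B', hB1'.trans (hfa p hp), hB2', rfl⟩]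
      rintro ⟨B'', h2, h3, h4⟩
      exact hne B'' B' h3 hB2' (Disjoint.mono h2 (hB1'.trans (hfa p hp)) (hdisj p)) h4
    rw [h1 q hq, h1 q' hq']

end Pool.Agent.Helper68.Borsuk
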