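import Mathlib
import Pool.Agent.Helper68.BorsukRank

namespace Pool.Agent.Helper68.Borsuk

open Finset

set_option linter.unusedSectionVars false

variable {E : Type*} [Fintype E] [DecidableEq E]

/-- rank function of the dual -/
def dualR (ρ : Finset E → ℕ) (A : Finset E) : ℕ := A.card + ρ Aᶜ - ρ univ

lemma IsRank.union_le {ρ : Finset E → ℕ} (h : IsRank ρ) (A B : Finset E) :
    ρ (A ∪ B) ≤ ρ A + B.card := by
  have := h.submod A B
  have := h.le_card B
  omega

lemma dualR_add {ρ : Finset E → ℕ} (h : IsRank ρ) (A : Finset E) :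
    dualR ρ A + ρ univ = A.card + ρ Aᶜ := by
  have h1 := h.union_le Aᶜ A
  have h2 : Aᶜ ∪ A = univ := by ext x; simp only [mem_union, mem_compl, mem_univ, iff_true]; tauto
  rw [h2] at h1
  unfold dualR
  omega

lemma isRank_dualR {ρ : Finset E → ℕ} (h : IsRank ρ) : IsRank (dualR ρ) := by
  refine ⟨?_, ?_, ?_, ?_⟩
  · have := dualR_add h ∅
    simp only [card_empty, compl_empty] at this
    omega
  · intro A B hAB
    have h1 := dualR_add h A
    have h2 := dualR_add h B
    have h3 := h.union_le Bᶜ (B \ A)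
    have h4 : Bᶜ ∪ (B \ A) = Aᶜ := by
      ext x
      have := @hAB x
      simp only [mem_union, mem_compl, mem_sdiff]
      tauto
    have h5 := card_sdiff_add_card_eq_card hAB
    rw [h4] at h3
    omega
  · intro A e
    have h1 := dualR_add h A
    have h2 := dualR_add h (insert e A)
    have h3 : ρ (insert e A)ᶜ ≤ ρ Aᶜ := h.mono _ _ (by
      rw [compl_subset_compl]; exact subset_insert _ _)
    have h4 := card_insert_le e A
    omega
  · intro A B
    have h1 := dualR_add h A
    have h2 := dualR_add h B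
    have h3 := dualR_add h (A ∪ B)
    have h4 := dualR_add h (A ∩ B)
    have h5 := h.submod Aᶜ Bᶜ
    have h6 : Aᶜ ∪ Bᶜ = (A ∩ B)ᶜ := by rw [compl_inter]
    have h7 : Aᶜ ∩ Bᶜ = (A ∪ B)ᶜ := by rw [compl_union]
    have h8 := card_union_add_card_inter A B
    rw [h6, h7] at h5
    omega

lemma isRank_split {ρ ρ' : Finset E → ℕ} (h : IsRank ρ) (h' : IsRank ρ') (S : Finset E) :
    IsRank (fun X => ρ (X ∩ S) + ρ' (X ∩ Sᶜ)) := by
  refine ⟨?_, ?_, ?_, ?_⟩
  · simp [h.empty, h'.empty]
  · intro A B hAB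
    exact Nat.add_le_add (h.mono _ _ (inter_subset_inter_right hAB))
      (h'.mono _ _ (inter_subset_inter_right hAB))
  · intro A e
    by_cases he : e ∈ S
    · have e1 : insert e A ∩ S = insert e (A ∩ S) := insert_inter_of_mem he
      have e2 : insert e A ∩ Sᶜ = A ∩ Sᶜ := insert_inter_of_notMem (by simpa using he)
      simp only [e1, e2]
      have := h.insert_le (A ∩ S) e
      omega
    · have e1 : insert e A ∩ S = A ∩ S := insert_inter_of_notMem he
      have e2 : insert e A ∩ Sᶜ = insert e (A ∩ Sᶜ) := insert_inter_of_mem (by simpa using he)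
      simp only [e1, e2]
      have := h'.insert_le (A ∩ Sᶜ) e
      omega
  · intro A B
    have h1 := h.submod (A ∩ S) (B ∩ S)
    have h2 := h'.submod (A ∩ Sᶜ) (B ∩ Sᶜ)
    have e1 : ∀ T : Finset E, (A ∩ T) ∪ (B ∩ T) = (A ∪ B) ∩ T := fun T => by
      rw [union_inter_distrib_right]
    have e2 : ∀ T : Finset E, (A ∩ T) ∩ (B ∩ T) = (A ∩ B) ∩ T := fun T => by
      ext x; simp only [mem_inter]; tauto
    rw [e1, e2] at h1 h2
    omega

/-- the twisted rank function -/
def twR (ρ : Finset E → ℕ) (S : Finset E) (X : Finset E) : ℕ := ρ (X ∩ S) + dualR ρ (X ∩ Sᶜ)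

/-- the twist map on sets -/
def psi (S X : Finset E) : Finset E := (X ∩ S) ∪ (Xᶜ ∩ Sᶜ)

lemma mem_psi {S X : Finset E} {e : E} : e ∈ psi S X ↔ (e ∈ S ↔ e ∈ X) := by
  simp only [psi, mem_union, mem_inter, mem_compl]
  tauto

lemma psi_psi (S X : Finset E) : psi S (psi S X) = X := by
  ext e
  rw [mem_psi, mem_psi]
  tauto

lemma isRank_twR {ρ : Finset E → ℕ} (h : IsRank ρ) (S : Finset E) : IsRank (twR ρ S) :=
  isRank_split h (isRank_dualR h) S

lemma twR_univ {ρ : Finset E → ℕ} (h : IsRank ρ) (S : Finset E) :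
    twR ρ S univ + ρ univ = 2 * ρ S + Sᶜ.card := by
  unfold twR
  have h1 := dualR_add h Sᶜ
  rw [compl_compl] at h1
  rw [univ_inter, univ_inter]
  omega

lemma twR_min {ρ : Finset E → ℕ} (h : IsRank ρ) (S : Finset E)
    (hS : ∀ A : Finset E, Sᶜ.card + 2 * ρ S ≤ Aᶜ.card + 2 * ρ A) (F : Finset E) :
    2 * twR ρ S univ ≤ Fᶜ.card + 2 * twR ρ S F := by
  have h1 := twR_univ h S
  have h2 := dualR_add h (F ∩ Sᶜ)
  have h3 := hS (F ∩ S)
  have h4 := hS (F ∩ Sᶜ)ᶜ
  rw [compl_compl] at h4
  have h5 : (F ∩ S)ᶜ.card = Fᶜ.card + (F ∩ Sᶜ).card := by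
    rw [← card_union_of_disjoint]
    · congr 1
      ext x
      simp only [mem_compl, mem_inter, mem_union]
      tauto
    · rw [Finset.disjoint_left]
      intro x hx1 hx2
      rw [mem_compl] at hx1
      rw [mem_inter] at hx2
      exact hx1 hx2.1
  unfold twR at h1 ⊢
  omega

lemma base_psi {ρ : Finset E → ℕ} (h : IsRank ρ) (S : Finset E) {X : Finset E}
    (hX : Base (twR ρ S) X) : Base ρ (psi S X) ∧ (X ∩ S).card = ρ S := by
  obtain ⟨hX1, hX2⟩ := hX
  have hu := twR_univ h S
  have h1 := dualR_add h (X ∩ Sᶜ)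
  have h2 := dualR_add h Sᶜ
  rw [compl_compl] at h2
  have h3 : ρ (X ∩ S) ≤ ρ S := h.mono _ _ inter_subset_right
  have h4 : dualR ρ (X ∩ Sᶜ) ≤ dualR ρ Sᶜ := (isRank_dualR h).mono _ _ inter_subset_right
  have h5 := h.le_card (X ∩ S)
  have h6 := (isRank_dualR h).le_card (X ∩ Sᶜ)
  have h7 : X.card = (X ∩ S).card + (X ∩ Sᶜ).card := by
    rw [← card_union_of_disjoint]
    · congr 1
      ext x
      simp only [mem_compl, mem_inter, mem_union]
      tauto
    · rw [Finset.disjoint_left]
      intro x hx1 hx2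
      rw [mem_inter, mem_compl] at hx2
      exact hx2.2 (mem_inter.1 hx1).2
  have hX1' : twR ρ S X = ρ (X ∩ S) + dualR ρ (X ∩ Sᶜ) := rfl
  -- everything is tight
  have t1 : ρ (X ∩ S) = ρ S := by omega
  have t2 : dualR ρ (X ∩ Sᶜ) = dualR ρ Sᶜ := by omega
  have t3 : (X ∩ S).card = ρ S := by omega
  have t4 : (X ∩ Sᶜ).card = dualR ρ Sᶜ := by omega
  have t5 : ρ (X ∩ Sᶜ)ᶜ = ρ univ := by omega
  have hpsi : psi S X ∪ S = (X ∩ Sᶜ)ᶜ := by
    ext x
    simp only [mem_union, mem_psi, mem_compl, mem_inter]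
    tauto
  have hpsi2 : X ∩ S ⊆ psi S X ∩ S := by
    intro x hx
    rw [mem_inter] at hx ⊢
    exact ⟨by rw [mem_psi]; tauto, hx.2⟩
  refine ⟨⟨?_, ?_⟩, t3⟩
  · have h8 := h.submod (psi S X) S
    rw [hpsi, t5] at h8
    have h9 := h.mono _ _ hpsi2
    have h10 := h.mono _ _ (subset_univ (psi S X))
    omega
  · have h8 : (psi S X).card = (X ∩ S).card + (Xᶜ ∩ Sᶜ).card := by
      unfold psi
      rw [card_union_of_disjoint]
      rw [Finset.disjoint_left]
      intro x hx1 hx2
      rw [mem_inter, mem_compl] at hx2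
      exact hx2.1 (mem_inter.1 hx1).1
    have h9 : Sᶜ.card = (X ∩ Sᶜ).card + (Xᶜ ∩ Sᶜ).card := by
      rw [← card_union_of_disjoint]
      · congr 1
        ext x
        simp only [mem_compl, mem_inter, mem_union]
        tauto
      · rw [Finset.disjoint_left]
        intro x hx1 hx2
        rw [mem_inter, mem_compl] at hx2
        exact hx2.1 (mem_inter.1 hx1).1
    omega

lemma card_sdiff_psi {ρ : Finset E → ℕ} (h : IsRank ρ) (S : Finset E) {X Y : Finset E}
    (hX : Base (twR ρ S) X) (hY : Base (twR ρ S) Y) (hXY : Disjoint X Y) :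
    (psi S X \ psi S Y).card = twR ρ S univ := by
  have h1 := (base_psi h S hX).2
  have h2 := (base_psi h S hY).2
  have h3 : psi S X \ psi S Y = (X ∩ S) ∪ (Y ∩ Sᶜ) := by
    ext x
    have := fun hx : x ∈ X => Finset.disjoint_left.1 hXY hx
    simp only [mem_sdiff, mem_psi, mem_union, mem_inter, mem_compl]
    tauto
  have h4 : Y.card = (Y ∩ S).card + (Y ∩ Sᶜ).card := by
    rw [← card_union_of_disjoint]
    · congr 1
      ext x
      simp only [mem_compl, mem_inter, mem_union]
      tauto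
    · rw [Finset.disjoint_left]
      intro x hx1 hx2
      rw [mem_inter, mem_compl] at hx2
      exact hx2.2 (mem_inter.1 hx1).2
  rw [h3, card_union_of_disjoint]
  · have := hY.2
    omega
  · rw [Finset.disjoint_left]
    intro x hx1 hx2
    rw [mem_inter, mem_compl] at hx2
    exact hx2.2 (mem_inter.1 hx1).2

lemma sdiff_le {ρ : Finset E → ℕ} (h : IsRank ρ) (S : Finset E) {B C : Finset E}
    (hB : Base ρ B) (hC : Base ρ C) :
    (B \ C).card ≤ twR ρ S univ ∧ ((B \ C).card = twR ρ S univ →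
      Disjoint (psi S B) (psi S C) ∧ twR ρ S (psi S B) = twR ρ S univ ∧
        twR ρ S (psi S C) = twR ρ S univ) := by
  have hu := twR_univ h S
  have hB2 := hB.2
  have hC2 := hC.2
  -- sizes
  have b1 : (B ∩ S).card ≤ ρ S := by
    -- B is independent
    have e1 := h.union_le (B ∩ S) (B ∩ Sᶜ)
    have e2 : (B ∩ S) ∪ (B ∩ Sᶜ) = B := by
      ext x; simp only [mem_union, mem_inter, mem_compl]; tauto
    have e3 : B.card = (B ∩ S).card + (B ∩ Sᶜ).card := by
      rw [← card_union_of_disjoint]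
      · rw [e2]
      · rw [Finset.disjoint_left]
        intro x hx1 hx2
        rw [mem_inter, mem_compl] at hx2
        exact hx2.2 (mem_inter.1 hx1).2
    rw [e2] at e1
    have e4 := h.mono _ _ (inter_subset_right : B ∩ S ⊆ S)
    have := hB.1
    omega
  have c1 : (C ∩ S).card ≤ ρ S := by
    have e1 := h.union_le (C ∩ S) (C ∩ Sᶜ)
    have e2 : (C ∩ S) ∪ (C ∩ Sᶜ) = C := by
      ext x; simp only [mem_union, mem_inter, mem_compl]; tauto
    have e3 : C.card = (C ∩ S).card + (C ∩ Sᶜ).card := by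
      rw [← card_union_of_disjoint]
      · rw [e2]
      · rw [Finset.disjoint_left]
        intro x hx1 hx2
        rw [mem_inter, mem_compl] at hx2
        exact hx2.2 (mem_inter.1 hx1).2
    rw [e2] at e1
    have e4 := h.mono _ _ (inter_subset_right : C ∩ S ⊆ S)
    have := hC.1
    omega
  -- decompose B ∪ C
  have d1 : (B ∪ C).card = ((B ∪ C) ∩ S).card + ((B ∪ C) ∩ Sᶜ).card := by
    rw [← card_union_of_disjoint]
    · congr 1
      ext x
      simp only [mem_compl, mem_inter, mem_union]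
      tauto
    · rw [Finset.disjoint_left]
      intro x hx1 hx2
      rw [mem_inter, mem_compl] at hx2
      exact hx2.2 (mem_inter.1 hx1).2
  have d2 : ((B ∪ C) ∩ S).card + ((B ∩ C) ∩ S).card = (B ∩ S).card + (C ∩ S).card := by
    rw [← card_union_add_card_inter (B ∩ S) (C ∩ S)]
    congr 2
    · rw [union_inter_distrib_right]
    · ext x; simp only [mem_inter]; tauto
  have d3 : ((B ∪ C) ∩ Sᶜ).card ≤ Sᶜ.card := card_le_card inter_subset_right
  have d4 : (B ∪ C).card = (B \ C).card + C.card := by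
    rw [← card_union_of_disjoint sdiff_disjoint, sdiff_union_self_eq_union]
  refine ⟨by omega, ?_⟩
  intro heq
  have t1 : (B ∩ S).card = ρ S := by omega
  have t2 : (C ∩ S).card = ρ S := by omega
  have t3 : ((B ∩ C) ∩ S).card = 0 := by omega
  have t4 : (B ∪ C) ∩ Sᶜ = Sᶜ := eq_of_subset_of_card_le inter_subset_right (by omega)
  have key : ∀ A : Finset E, Base ρ A → (A ∩ S).card = ρ S →
      twR ρ S (psi S A) = twR ρ S univ := by
    intro A hA hAS
    have e1 : psi S A ∩ S = A ∩ S := by
      ext x; simp only [mem_inter, mem_psi]; tauto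
    have e2 : psi S A ∩ Sᶜ = Aᶜ ∩ Sᶜ := by
      ext x; simp only [mem_inter, mem_psi, mem_compl]; tauto
    have e3 := dualR_add h (Aᶜ ∩ Sᶜ)
    have e4 : ρ (Aᶜ ∩ Sᶜ)ᶜ = ρ univ := by
      refine span_mono h A _ ?_ hA.1
      intro x hx
      simp only [mem_compl, mem_inter]
      tauto
    have e5 : ρ (A ∩ S) = (A ∩ S).card := by
      have f1 := h.union_le (A ∩ S) (A ∩ Sᶜ)
      have f2 : (A ∩ S) ∪ (A ∩ Sᶜ) = A := by
        ext x; simp only [mem_union, mem_inter, mem_compl]; tauto
      have f3 : A.card = (A ∩ S).card + (A ∩ Sᶜ).card := by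
        rw [← card_union_of_disjoint]
        · rw [f2]
        · rw [Finset.disjoint_left]
          intro x hx1 hx2
          rw [mem_inter, mem_compl] at hx2
          exact hx2.2 (mem_inter.1 hx1).2
      rw [f2] at f1
      have f4 := h.le_card (A ∩ S)
      have := hA.1
      have := hA.2
      omega
    have e6 : Sᶜ.card = (A ∩ Sᶜ).card + (Aᶜ ∩ Sᶜ).card := by
      rw [← card_union_of_disjoint]
      · congr 1
        ext x
        simp only [mem_compl, mem_inter, mem_union]
        tauto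
      · rw [Finset.disjoint_left]
        intro x hx1 hx2
        rw [mem_inter, mem_compl] at hx2
        exact hx2.1 (mem_inter.1 hx1).1
    have e7 : A.card = (A ∩ S).card + (A ∩ Sᶜ).card := by
      rw [← card_union_of_disjoint]
      · congr 1
        ext x
        simp only [mem_compl, mem_inter, mem_union]
        tauto
      · rw [Finset.disjoint_left]
        intro x hx1 hx2
        rw [mem_inter, mem_compl] at hx2
        exact hx2.2 (mem_inter.1 hx1).2
    have e8 : twR ρ S (psi S A) = ρ (A ∩ S) + dualR ρ (Aᶜ ∩ Sᶜ) := by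
      unfold twR
      rw [e1, e2]
    have := hA.2
    omega
  refine ⟨?_, key B hB t1, key C hC t2⟩
  rw [Finset.disjoint_left]
  intro x hx1 hx2
  rw [mem_psi] at hx1 hx2
  by_cases hxS : x ∈ S
  · have : x ∈ (B ∩ C) ∩ S := by
      simp only [mem_inter]
      tauto
    rw [card_eq_zero] at t3
    rw [t3] at this
    exact absurd this (by simp)
  · have h5 : x ∈ Sᶜ := by simpa using hxS
    rw [← t4] at h5
    simp only [mem_inter, mem_union] at h5
    tauto

/-- The colouring giving the upper bound. -/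
lemma upper_bound {ρ : Finset E → ℕ} (h : IsRank ρ) (S : Finset E)
    (hS : ∀ A : Finset E, Sᶜ.card + 2 * ρ S ≤ Aᶜ.card + 2 * ρ A) (F : Finset E)
    (hF : twR ρ S F < twR ρ S univ) (n : ℕ)
    (hn : Fᶜ.card + 2 * twR ρ S F + 2 ≤ n + 2 * twR ρ S univ) :
    ∃ κ : Finset E → ℕ, (∀ B, κ B < n) ∧ ∀ B C, Base ρ B → Base ρ C → κ B = κ C →
      (B \ C).card < twR ρ S univ := by
  classical
  have hmin := twR_min h S hS F
  obtain ⟨D, hD1, hD2⟩ := Finset.exists_subset_card_eq (s := Fᶜ)
    (n := Fᶜ.card + 2 * twR ρ S F + 1 - 2 * twR ρ S univ) (by omega)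
  set κ : Finset E → ℕ := fun B =>
    if hB : (psi S B ∩ D).Nonempty then
      (D.equivFin ⟨hB.choose, (mem_inter.1 hB.choose_spec).2⟩ : ℕ)
    else D.card with hκ
  refine ⟨κ, ?_, ?_⟩
  · intro B
    simp only [hκ]
    split_ifs with hB
    · have := (D.equivFin ⟨hB.choose, (mem_inter.1 hB.choose_spec).2⟩).isLt
      omega
    · omega
  · intro B C hB hC heq
    obtain ⟨h1, h2⟩ := sdiff_le h S hB hC
    refine lt_of_le_of_ne h1 ?_
    intro h3
    obtain ⟨h4, h5, h6⟩ := h2 h3
    simp only [hκ] at heq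
    have hlt : ∀ x : D, (D.equivFin x : ℕ) < D.card := fun x => (D.equivFin x).isLt
    split_ifs at heq with g1 g2 g2
    · have e1 : D.equivFin ⟨g1.choose, (mem_inter.1 g1.choose_spec).2⟩
          = D.equivFin ⟨g2.choose, (mem_inter.1 g2.choose_spec).2⟩ := Fin.ext heq
      have e2 := D.equivFin.injective e1
      have e3 : g1.choose = g2.choose := congrArg Subtype.val e2
      have e4 := (mem_inter.1 g1.choose_spec).1
      have e5 := (mem_inter.1 g2.choose_spec).1
      rw [← e3] at e5
      exact Finset.disjoint_left.1 h4 e4 e5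
    · have := hlt ⟨g1.choose, (mem_inter.1 g1.choose_spec).2⟩
      omega
    · have := hlt ⟨g2.choose, (mem_inter.1 g2.choose_spec).2⟩
      omega
    · -- both avoid D
      have key : ∀ X : Finset E, twR ρ S X = twR ρ S univ → ¬ (X ∩ D).Nonempty →
          twR ρ S univ ≤ twR ρ S F + (X ∩ (Fᶜ \ D)).card := by
        intro X hX hXD
        have f1 := (isRank_twR h S).union_le F (X ∩ (Fᶜ \ D))
        have f2 : X ⊆ F ∪ (X ∩ (Fᶜ \ D)) := by
          intro x hx
          simp only [mem_union, mem_inter, mem_sdiff, mem_compl]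
          by_cases hxF : x ∈ F
          · exact Or.inl hxF
          · right
            refine ⟨hx, hxF, ?_⟩
            intro hxD
            exact hXD ⟨x, mem_inter.2 ⟨hx, hxD⟩⟩
        have f3 := (isRank_twR h S).mono _ _ f2
        omega
      have k1 := key _ h5 g1
      have k2 := key _ h6 g2
      have k3 : ((psi S B) ∩ (Fᶜ \ D)).card + ((psi S C) ∩ (Fᶜ \ D)).card ≤ (Fᶜ \ D).card := by
        rw [← card_union_of_disjoint]
        · apply card_le_card
          intro x hx
          simp only [mem_union, mem_inter] at hx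
          tauto
        · rw [Finset.disjoint_left]
          intro x hx1 hx2
          exact Finset.disjoint_left.1 h4 (mem_inter.1 hx1).1 (mem_inter.1 hx2).1
      have k4 := card_sdiff_add_card_eq_card hD1
      omega

end Pool.Agent.Helper68.Borsuk
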