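import Mathlib
import Pool.Agent.Helper68.BorsukTwist

namespace Pool.Agent.Helper68.Borsuk

open Finset

set_option linter.unusedSectionVars false

variable {E E' : Type*} [Fintype E] [DecidableEq E] [Fintype E'] [DecidableEq E']

/-- rank function of a direct sum -/
def sumR (ρ : Finset E → ℕ) (ρ' : Finset E' → ℕ) (X : Finset (E ⊕ E')) : ℕ :=
  ρ X.toLeft + ρ' X.toRight

lemma isRank_sumR {ρ : Finset E → ℕ} {ρ' : Finset E' → ℕ} (h : IsRank ρ) (h' : IsRank ρ') :
    IsRank (sumR ρ ρ') := by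
  refine ⟨?_, ?_, ?_, ?_⟩
  · have e1 : (∅ : Finset (E ⊕ E')).toLeft = ∅ := by ext; simp
    have e2 : (∅ : Finset (E ⊕ E')).toRight = ∅ := by ext; simp
    simp [sumR, e1, e2, h.empty, h'.empty]
  · intro A B hAB
    exact Nat.add_le_add (h.mono _ _ (toLeft_subset_toLeft hAB))
      (h'.mono _ _ (toRight_subset_toRight hAB))
  · intro A e
    unfold sumR
    cases e with
    | inl e =>
      rw [toLeft_insert_inl, toRight_insert_inl]
      have := h.insert_le A.toLeft e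
      omega
    | inr e =>
      rw [toLeft_insert_inr, toRight_insert_inr]
      have := h'.insert_le A.toRight e
      omega
  · intro A B
    unfold sumR
    rw [toLeft_union, toRight_union, toLeft_inter, toRight_inter]
    have h1 := h.submod A.toLeft B.toLeft
    have h2 := h'.submod A.toRight B.toRight
    omega

lemma sumR_univ (ρ : Finset E → ℕ) (ρ' : Finset E' → ℕ) :
    sumR ρ ρ' univ = ρ univ + ρ' univ := by
  unfold sumR
  rw [toLeft_univ]
  congr 2
  ext; simp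

lemma base_sumR {ρ : Finset E → ℕ} {ρ' : Finset E' → ℕ} (h : IsRank ρ) (h' : IsRank ρ')
    {X : Finset (E ⊕ E')} (hX : Base (sumR ρ ρ') X) : Base ρ X.toLeft ∧ Base ρ' X.toRight := by
  obtain ⟨h1, h2⟩ := hX
  rw [sumR_univ] at h1 h2
  unfold sumR at h1
  rw [← card_toLeft_add_card_toRight] at h2
  have h3 := h.le_card X.toLeft
  have h4 := h'.le_card X.toRight
  have h5 := h.mono _ _ (subset_univ X.toLeft)
  have h6 := h'.mono _ _ (subset_univ X.toRight)
  exact ⟨⟨by omega, by omega⟩, ⟨by omega, by omega⟩⟩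

theorem sum_lower {ρ : Finset E → ℕ} {ρ' : Finset E' → ℕ} (h : IsRank ρ) (h' : IsRank ρ')
    (c : ℕ) (hpos : 0 < ρ univ + ρ' univ)
    (hmin : ∀ F, 2 * ρ univ ≤ Fᶜ.card + 2 * ρ F)
    (hmin' : ∀ F, 2 * ρ' univ ≤ Fᶜ.card + 2 * ρ' F)
    (hF : ∀ F, ρ F < ρ univ → 2 * ρ univ + c ≤ Fᶜ.card + 2 * ρ F)
    (hF' : ∀ F, ρ' F < ρ' univ → 2 * ρ' univ + c ≤ Fᶜ.card + 2 * ρ' F)
    (κ : Finset (E ⊕ E') → ℕ) (hκ : ∀ B, Base (sumR ρ ρ') B → κ B ≤ c) :
    ∃ X Y, Base (sumR ρ ρ') X ∧ Base (sumR ρ ρ') Y ∧ Disjoint X Y ∧ κ X = κ Y := by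
  apply lower_bound (isRank_sumR h h') (by rw [sumR_univ]; exact hpos) c ?_ κ hκ
  intro F _ hlt
  rw [sumR_univ] at hlt ⊢
  unfold sumR at hlt ⊢
  have hc : Fᶜ.card = (F.toLeft)ᶜ.card + (F.toRight)ᶜ.card := by
    rw [← card_toLeft_add_card_toRight]
    congr 2
    · ext; simp
    · ext; simp
  rw [hc]
  have h1 := hmin F.toLeft
  have h2 := hmin' F.toRight
  by_cases h3 : ρ F.toLeft < ρ univ
  · have := hF _ h3
    omega
  · have h4 := h.mono _ _ (subset_univ F.toLeft)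
    have h5 : ρ' F.toRight < ρ' univ := by omega
    have := hF' _ h5
    omega

end Pool.Agent.Helper68.Borsuk
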