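import Pool.Agent.Helper67.Bass.Gen2

/-!
# Fraction fields of rings generated by one element over a finite field
-/

set_option autoImplicit false

namespace Pool.Agent.Helper68

open Function Pool.Agent.Helper67.Bass
open scoped Polynomial

/-- The fraction field of a domain generated by one element over a finite field has Kronecker
dimension at most one. -/
theorem kron_of_gen (k : Type) [Field k] [Finite k] (T : Type) [CommRing T] [IsDomain T]
    [Algebra k T] (x : T) (hx : ∀ y : T, ∃ f : k[X], Polynomial.aeval x f = y) :
    KroneckerLeOne (FractionRing T) := by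
  obtain ⟨p, hpp⟩ := CharP.exists k
  have : CharP k p := hpp
  have hp : p.Prime := by
    rcases CharP.char_is_prime_or_zero k p with h | h
    · exact h
    · exfalso
      subst h
      have : CharZero k := CharP.charP_to_charZero k
      exact not_finite k
  have : Fact p.Prime := ⟨hp⟩
  letI : Algebra (ZMod p) k := ZMod.algebra k p
  letI : Algebra (ZMod p) (FractionRing T) :=
    ((algebraMap k (FractionRing T)).comp (algebraMap (ZMod p) k)).toAlgebra
  have : IsScalarTower (ZMod p) k (FractionRing T) := IsScalarTower.of_algebraMap_eq fun _ => rfl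
  have : Algebra.IsAlgebraic (ZMod p) k := by
    have : Module.Finite (ZMod p) k := Module.Finite.of_finite
    exact Algebra.IsAlgebraic.of_finite (ZMod p) k
  apply kronecker_of_trdeg p
  intro a b hab
  have h1 : AlgebraicIndependent k ![a, b] := hab.extendScalars (S := k)
  obtain ⟨t, ht⟩ : ∃ t : FractionRing T, t = algebraMap T (FractionRing T) x := ⟨_, rfl⟩
  have h2 : ∀ f : k[X], MvPolynomial.aeval ![t, t] (Polynomial.aeval (MvPolynomial.X 0) f :
      MvPolynomial (Fin 2) k) = algebraMap T (FractionRing T) (Polynomial.aeval x f) := by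
    intro f
    rw [← Polynomial.aeval_algebraMap_apply, ← ht, ← Polynomial.aeval_algHom_apply]
    rw [MvPolynomial.aeval_X]
    rfl
  have h3 : ∀ z : FractionRing T, ∃ f g : MvPolynomial (Fin 2) k,
      MvPolynomial.aeval ![t, t] g ≠ 0 ∧
      z * MvPolynomial.aeval ![t, t] g = MvPolynomial.aeval ![t, t] f := by
    intro z
    obtain ⟨u, v, hv, rfl⟩ := IsFractionRing.div_surjective (A := T) z
    obtain ⟨f, rfl⟩ := hx u
    obtain ⟨g, rfl⟩ := hx v
    have hv0 : algebraMap T (FractionRing T) (Polynomial.aeval x g) ≠ 0 :=
      IsFractionRing.to_map_ne_zero_of_mem_nonZeroDivisors hv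
    refine ⟨Polynomial.aeval (MvPolynomial.X 0) f, Polynomial.aeval (MvPolynomial.X 0) g, ?_, ?_⟩
    · rw [h2]
      exact hv0
    · rw [h2, h2, div_mul_cancel₀ _ hv0]
  have h4 : ¬ AlgebraicIndependent k ![t, t] := by
    intro h
    have h5 := h.injective (a₁ := 0) (a₂ := 1) rfl
    exact absurd h5 (by decide)
  have h5 := trdeg_lt k (FractionRing T) ![t, t] h3 h4 ![a, b] h1
  omega

end Pool.Agent.Helper68
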